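import Pool.Agent.Lib.MP_7a5332_co.Crit

set_option autoImplicit false

namespace Pool.Agent.Lib.MP_7a5332_co

abbrev S (r : ℕ) := Fin (3 * r) × Fin (3 * r) × Fin (3 * r)

inductive F (N : ℕ) where
  | L (i l : Fin N)
  | R (i k : Fin N)
  | mu (i : Fin N)
  | mub (i : Fin N)
  | u (i : Fin N)
  | v (i : Fin N)
  | a (i : Fin N)
  | zL (i : Fin N) (k : Fin (N + 1))
  | zR (i : Fin N) (k : Fin (N + 1))
  | zA (k : Fin (N + 1))
  | zB (k : Fin (N + 1))
  | pal (c : Fin 3)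
  deriving Fintype

inductive V (r : ℕ) where
  | x (s : {s : S r // s.1.1 < 2 * r})
  | y (s : {s : S r // r ≤ s.1.1})
  | g (s : S r)
  | f (φ : F (3 * r))
  deriving Fintype

inductive I (N : ℕ) where
  | startL (i : Fin N)
  | startR (i : Fin N)
  | startA
  | startB
  | stepL (i k : Fin N)
  | stepR (i k : Fin N)
  | stepA (k : Fin N)
  | stepB (k : Fin N)
  | uL (i : Fin N)
  | uR (i : Fin N)
  | uM (i : Fin N)
  | uX (i : Fin N)
  | vL (i : Fin N)
  | vR (i : Fin N)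
  | vM (i : Fin N)
  | vA (i : Fin N)
  | vY (i : Fin N)
  deriving Fintype

inductive J (N : ℕ) where
  | p01
  | p02
  | p12
  | mu0 (i : Fin N)
  | mub0 (i : Fin N)
  | mm (i : Fin N)
  | Lm (i l : Fin N)
  | R0 (i k : Fin N)
  | a0 (i : Fin N)
  | aZ (i : Fin N)
  | fin
  deriving Fintype

theorem card_F (N : ℕ) : Fintype.card (F N) = 4 * N ^ 2 + 9 * N + 5 := by
  rw [← Fintype.card_congr (proxy_equiv% (F N))]
  simp
  ring

theorem card_I (N : ℕ) : Fintype.card (I N) = 2 * N ^ 2 + 13 * N + 2 := by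
  rw [← Fintype.card_congr (proxy_equiv% (I N))]
  simp
  ring

theorem card_J (N : ℕ) : Fintype.card (J N) = 2 * N ^ 2 + 5 * N + 4 := by
  rw [← Fintype.card_congr (proxy_equiv% (J N))]
  simp
  ring

def Iabc (r : ℕ) : I (3 * r) → F (3 * r) × F (3 * r) × F (3 * r)
  | .startL i => (.mu i, .mu i, .zL i 0)
  | .startR i => (.mu i, .mu i, .zR i 0)
  | .startA => (.pal 2, .pal 2, .zA 0)
  | .startB => (.pal 1, .pal 1, .zB 0)
  | .stepL i k => (.zL i k.castSucc, .L i k, .zL i k.succ)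
  | .stepR i k => (.zR i k.castSucc, .R i k, .zR i k.succ)
  | .stepA k => (.zA k.castSucc, .u k, .zA k.succ)
  | .stepB k => (.zB k.castSucc, .v k, .zB k.succ)
  | .uL i => (.zL i (Fin.last _), .pal 2, .u i)
  | .uR i => (.zR i (Fin.last _), .pal 2, .u i)
  | .uM i => (.mub i, .pal 2, .u i)
  | .uX i => if i.1 < 2 * r then (.u i, .u i, .u i) else (.pal 2, .pal 2, .u i)
  | .vL i => (.zL i (Fin.last _), .pal 1, .v i)
  | .vR i => (.zR i (Fin.last _), .pal 1, .v i)
  | .vM i => (.mub i, .pal 1, .v i)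
  | .vA i => (.a i, .pal 1, .v i)
  | .vY i => if r ≤ i.1 then (.v i, .v i, .v i) else (.pal 1, .pal 1, .v i)

def Juv (N : ℕ) : J N → F N × F N
  | .p01 => (.pal 0, .pal 1)
  | .p02 => (.pal 0, .pal 2)
  | .p12 => (.pal 1, .pal 2)
  | .mu0 i => (.mu i, .pal 0)
  | .mub0 i => (.mub i, .pal 0)
  | .mm i => (.mu i, .mub i)
  | .Lm i l => (.L i l, .mub i)
  | .R0 i k => (.R i k, .pal 0)
  | .a0 i => (.a i, .pal 0)
  | .aZ i => (.a i, .zA i.castSucc)
  | .fin => (.zB (Fin.last _), .pal 1)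

def adj0 (r : ℕ) : V r → V r → Prop
  | .x s, .y t => s.1.1 < t.1.1
  | .g s, .x t => s = t.1
  | .g s, .y t => s = t.1
  | .g s, .f φ => φ = .L s.1 s.2.1 ∨ φ = .R s.1 s.2.2
  | .x _, .f φ => φ = .pal 1
  | .y _, .f φ => φ = .pal 2
  | _, _ => False

def G0 (r : ℕ) : SimpleGraph (V r) where
  Adj p q := adj0 r p q ∨ adj0 r q p
  symm := ⟨fun _ _ h => h.symm⟩
  loopless := ⟨by rintro (s | s | s | s) h <;> simp [adj0] at h⟩

theorem G0_tri (r : ℕ) : TriFree (G0 r) := by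
  rintro (a | a | a | a) (b | b | b | b) (c | c | c | c) h1 h2 h3 <;>
    simp only [G0, adj0, or_false, false_or, or_self] at h1 h2 h3 <;>
    first
      | (subst h1; simp_all)
      | (subst h2; simp_all)

theorem chain {N : ℕ} (z : Fin (N + 1) → Fin 3) (t : Fin N → Fin 3) (c : Fin 3) (h0 : z 0 = c)
    (hs : ∀ k : Fin N, z k.castSucc = t k → z k.succ = z k.castSucc) (k : Fin (N + 1))
    (hk : z k ≠ c) : ∃ j : Fin N, j.1 < k.1 ∧ t j ≠ c := by
  induction k using Fin.induction with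
  | zero => exact absurd h0 hk
  | succ k ih =>
    by_cases h1 : z k.castSucc = c
    · refine ⟨k, by simp, fun h2 => hk ?_⟩
      rw [hs k (h1.trans h2.symm), h1]
    · obtain ⟨j, hj, hj'⟩ := ih h1
      exact ⟨j, by simp at hj ⊢; omega, hj'⟩

set_option synthInstance.maxSize 10000 in
theorem third : ∀ a b c d : Fin 3, a ≠ b → a ≠ c → b ≠ c → d ≠ a → d ≠ b → d = c := by decide

theorem sound (r : ℕ) (col : V r → Fin 3) (hp : Prp (G0 r) none col)
    (hj : ∀ j, col (.f (Juv (3 * r) j).1) ≠ col (.f (Juv (3 * r) j).2))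
    (hi : ∀ i, col (.f (Iabc r i).1) = col (.f (Iabc r i).2.1) →
      col (.f (Iabc r i).2.2) = col (.f (Iabc r i).1)) : False := by
  have hp' : ∀ p q, adj0 r p q → col p ≠ col q := by
    intro p q h he
    simpa using hp p q (Or.inl h) he
  have h01 : col (.f (.pal 0)) ≠ col (.f (.pal 1)) := hj .p01
  have h02 : col (.f (.pal 0)) ≠ col (.f (.pal 2)) := hj .p02
  have h12 : col (.f (.pal 1)) ≠ col (.f (.pal 2)) := hj .p12
  have blk : ∀ i, col (.f (.zL i (Fin.last _))) ≠ col (.f (.mu i)) →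
      col (.f (.zR i (Fin.last _))) ≠ col (.f (.mu i)) →
      ∃ l k, col (.g (i, l, k)) = col (.f (.mu i)) := by
    intro i hL hR
    obtain ⟨l, -, hl⟩ := chain (fun k => col (.f (.zL i k))) (fun k => col (.f (.L i k))) _
      (hi (.startL i) rfl) (fun k => hi (.stepL i k)) _ hL
    obtain ⟨k, -, hk⟩ := chain (fun k => col (.f (.zR i k))) (fun k => col (.f (.R i k))) _
      (hi (.startR i) rfl) (fun k => hi (.stepR i k)) _ hR
    have m0 : col (.f (.mu i)) ≠ col (.f (.pal 0)) := hj (.mu0 i)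
    have b0 : col (.f (.mub i)) ≠ col (.f (.pal 0)) := hj (.mub0 i)
    have mb : col (.f (.mu i)) ≠ col (.f (.mub i)) := hj (.mm i)
    have e1 := third _ _ _ _ mb m0 b0 hl (hj (.Lm i l))
    have e2 := third _ _ _ _ m0 mb b0.symm hk (hj (.R0 i k))
    have g1 := hp' (.g (i, l, k)) (.f (.L i l)) (Or.inl rfl)
    have g2 := hp' (.g (i, l, k)) (.f (.R i k)) (Or.inr rfl)
    rw [e1] at g1
    rw [e2] at g2
    exact ⟨l, k, third _ _ _ _ b0.symm m0.symm mb.symm g1 g2⟩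
  obtain ⟨j, -, hvj⟩ := chain (fun k => col (.f (.zB k))) (fun k => col (.f (.v k))) _
    (hi .startB rfl) (fun k => hi (.stepB k)) _ (hj .fin)
  have hjr : r ≤ j.1 := by
    by_contra hh
    have := hi (.vY j)
    simp only [Iabc, hh, if_false] at this
    exact hvj (this trivial)
  have hja : col (.f (.a j)) = col (.f (.pal 2)) :=
    third _ _ _ _ h01 h02 h12 (hj (.a0 j)) (fun h => hvj ((hi (.vA j) h).trans h))
  have hjb : col (.f (.mub j)) = col (.f (.pal 2)) :=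
    third _ _ _ _ h01 h02 h12 (hj (.mub0 j)) (fun h => hvj ((hi (.vM j) h).trans h))
  have hjm : col (.f (.mu j)) = col (.f (.pal 1)) :=
    third _ _ _ _ h02 h01 h12.symm (hj (.mu0 j)) (fun h => hj (.mm j) (h.trans hjb.symm))
  obtain ⟨l1, k1, hg1⟩ := blk j
    (by rw [hjm]; exact fun h => hvj ((hi (.vL j) h).trans h))
    (by rw [hjm]; exact fun h => hvj ((hi (.vR j) h).trans h))
  obtain ⟨i, hij, hui⟩ := chain (fun k => col (.f (.zA k))) (fun k => col (.f (.u k))) _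
    (hi .startA rfl) (fun k => hi (.stepA k)) j.castSucc
    (fun h => hj (.aZ j) (hja.trans h.symm))
  have hir : i.1 < 2 * r := by
    by_contra hh
    have := hi (.uX i)
    simp only [Iabc, hh, if_false] at this
    exact hui (this trivial)
  have hib : col (.f (.mub i)) = col (.f (.pal 1)) :=
    third _ _ _ _ h02 h01 h12.symm (hj (.mub0 i)) (fun h => hui ((hi (.uM i) h).trans h))
  have him : col (.f (.mu i)) = col (.f (.pal 2)) :=
    third _ _ _ _ h01 h02 h12 (hj (.mu0 i)) (fun h => hj (.mm i) (h.trans hib.symm))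
  obtain ⟨l0, k0, hg0⟩ := blk i
    (by rw [him]; exact fun h => hui ((hi (.uL i) h).trans h))
    (by rw [him]; exact fun h => hui ((hi (.uR i) h).trans h))
  have ex : col (.x ⟨(i, l0, k0), hir⟩) = col (.f (.pal 0)) := by
    refine third _ _ _ _ h12 h01.symm h02.symm (hp' _ _ rfl) ?_
    rw [← him, ← hg0]
    exact (hp' (.g (i, l0, k0)) (.x ⟨(i, l0, k0), hir⟩) rfl).symm
  have ey : col (.y ⟨(j, l1, k1), hjr⟩) = col (.f (.pal 0)) := by
    refine third _ _ _ _ h12.symm h02.symm h01.symm (hp' _ _ rfl) ?_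
    rw [← hjm, ← hg1]
    exact (hp' (.g (j, l1, k1)) (.y ⟨(j, l1, k1), hjr⟩) rfl).symm
  exact hp' (.x ⟨(i, l0, k0), hir⟩) (.y ⟨(j, l1, k1), hjr⟩) hij (ex.trans ey.symm)

section complete

variable {r : ℕ} (i0 l0 k0 j0 l1 k1 : Fin (3 * r))

def cF : F (3 * r) → Fin 3
  | .L i l => if i = i0 then (if l = l0 then 0 else 2) else
      if i = j0 ∧ l = l1 then 0 else 1
  | .R i k => if i = i0 then (if k = k0 then 1 else 2) else
      if i = j0 ∧ k = k1 then 2 else 1
  | .mu i => if i = i0 then 2 else 1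
  | .mub i => if i = i0 then 1 else 2
  | .u i => if i = i0 then 0 else 2
  | .v i => if i = j0 then 0 else 1
  | .a i => if i.1 ≤ i0.1 then 1 else 2
  | .zL i k => if i = i0 then (if k.1 ≤ l0.1 then 2 else 0) else
      if i = j0 ∧ l1.1 < k.1 then 0 else 1
  | .zR i k => if i = i0 then (if k.1 ≤ k0.1 then 2 else 0) else
      if i = j0 ∧ k1.1 < k.1 then 0 else 1
  | .zA k => if k.1 ≤ i0.1 then 2 else 0
  | .zB k => if k.1 ≤ j0.1 then 1 else 0
  | .pal c => c

def cG (s : S r) : Fin 3 :=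
  if s.1 = i0 then (if s.2.1 = l0 then (if s.2.2 = k0 then 2 else 1) else 0) else
    if s.1 = j0 ∧ s.2.1 = l1 then (if s.2.2 = k1 then 1 else 2) else 0

def cV : V r → Fin 3
  | .x s => if cG i0 l0 k0 j0 l1 k1 s.1 = 2 then 0 else 2
  | .y s => if cG i0 l0 k0 j0 l1 k1 s.1 = 1 then 0 else 1
  | .g s => cG i0 l0 k0 j0 l1 k1 s
  | .f φ => cF i0 l0 k0 j0 l1 k1 φ

theorem complete_J (j : J (3 * r)) :
    cF i0 l0 k0 j0 l1 k1 (Juv (3 * r) j).1 ≠ cF i0 l0 k0 j0 l1 k1 (Juv (3 * r) j).2 := by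
  have := j0.2
  cases j <;> simp only [Juv, cF, Fin.val_castSucc, Fin.val_last] <;> (try split_ifs) <;>
    first | decide | omega

theorem complete_I (hij : i0 < j0) (h0 : i0.1 < 2 * r) (h1 : r ≤ j0.1) (i : I (3 * r)) :
    cF i0 l0 k0 j0 l1 k1 (Iabc r i).1 = cF i0 l0 k0 j0 l1 k1 (Iabc r i).2.1 →
      cF i0 l0 k0 j0 l1 k1 (Iabc r i).2.2 = cF i0 l0 k0 j0 l1 k1 (Iabc r i).1 := by
  have := j0.2
  have := l0.2
  have := k0.2
  have := l1.2
  have := k1.2
  have hij' : i0.1 < j0.1 := hij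
  cases i <;> simp only [Iabc] <;> (try split_ifs) <;>
    simp only [cF, Fin.val_castSucc, Fin.val_last, Fin.val_succ, Fin.val_zero, Fin.ext_iff] <;>
    (try split_ifs) <;> first | decide | omega

theorem complete_G (hij : i0 < j0) (h0 : i0.1 < 2 * r) (h1 : r ≤ j0.1) :
    Prp (G0 r) (some (.x ⟨(i0, l0, k0), h0⟩, .y ⟨(j0, l1, k1), h1⟩)) (cV i0 l0 k0 j0 l1 k1) := by
  have key : ∀ p q, adj0 r p q → cV i0 l0 k0 j0 l1 k1 p = cV i0 l0 k0 j0 l1 k1 q →
      p = .x ⟨(i0, l0, k0), h0⟩ ∧ q = .y ⟨(j0, l1, k1), h1⟩ := by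
    have hij' : i0.1 < j0.1 := hij
    rintro (⟨⟨i, l, k⟩, hs⟩ | ⟨⟨i, l, k⟩, hs⟩ | ⟨i, l, k⟩ | φ)
      (⟨⟨i', l', k'⟩, hs'⟩ | ⟨⟨i', l', k'⟩, hs'⟩ | ⟨i', l', k'⟩ | φ') h <;>
      simp only [adj0] at h
    · have h' : i.1 < i'.1 := h
      simp only [cV, cG, V.x.injEq, V.y.injEq, Subtype.mk.injEq, Prod.mk.injEq, Fin.ext_iff]
      split_ifs <;> omega
    · subst h
      simp only [cV, cF]
      split_ifs <;> simp
    · subst h
      simp only [cV, cF]
      split_ifs <;> simp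
    · cases h
      simp only [cV]
      split_ifs with hh
      · rw [hh]; simp
      · intro h; exact absurd h hh
    · cases h
      simp only [cV]
      split_ifs with hh
      · rw [hh]; simp
      · intro h; exact absurd h hh
    · rcases h with rfl | rfl <;> simp only [cV, cG, cF] <;> split_ifs <;> simp_all
  intro p q h he
  rcases h with h | h
  · obtain ⟨rfl, rfl⟩ := key p q h he
    exact Or.inl rfl
  · obtain ⟨rfl, rfl⟩ := key q p h he.symm
    exact Or.inr rfl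

end complete

end Pool.Agent.Lib.MP_7a5332_co
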