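import Pool.Agent.Lib.MP_7a5332_co.Gadget

set_option autoImplicit false

namespace Pool.Agent.Lib.MP_7a5332_co

open SimpleGraph

theorem colorable_iff {V : Type} (G : SimpleGraph V) (n : ℕ) :
    G.Colorable n ↔ ∃ c : V → Fin n, ∀ a b, G.Adj a b → c a ≠ c b :=
  ⟨fun ⟨c⟩ => ⟨c, fun _ _ h => c.valid h⟩, fun ⟨c, h⟩ => ⟨Coloring.mk c fun {a b} => h a b⟩⟩

theorem crit_sub {W K : Type} [Fintype W] [Fintype K] (H : SimpleGraph W) (htri : TriFree H)
    (hn : ∀ col, ¬ Prp H none col) (p q : K → W)
    (hinj : Function.Injective fun k => s(p k, q k))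
    (hc : ∀ k, ∃ col, Prp H (some (p k, q k)) col) :
    ∃ n ≤ Fintype.card W, ∃ G : SimpleGraph (Fin n), G.CliqueFree 3 ∧ G.chromaticNumber = 4 ∧
      (∀ v : Fin n, ∃ w : Fin n, G.Adj v w) ∧
      (∀ e ∈ G.edgeSet, (G.deleteEdges {e}).Colorable 3) ∧
      Fintype.card K ≤ G.edgeSet.ncard := by
  classical
  have hH : ¬ H.Colorable 3 := by
    rw [colorable_iff]
    rintro ⟨c, hc⟩
    exact hn c fun a b hab he => absurd he (hc a b hab)
  obtain ⟨H', hle, hmin⟩ := exists_minimal_le_of_wellFoundedLT (fun X : SimpleGraph W =>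
    ¬ X.Colorable 3) H hH
  have hcrit : ∀ e ∈ H'.edgeSet, (H'.deleteEdges {e}).Colorable 3 := by
    intro e he
    by_contra hh
    have h1 := hmin.le_of_le hh (deleteEdges_le _)
    induction e using Sym2.ind with
    | _ a b =>
      have := h1 he
      simp at this
  have hD : ∀ k, H'.Adj (p k) (q k) := by
    intro k
    by_contra hh
    obtain ⟨col, hcol⟩ := hc k
    apply hmin.prop
    rw [colorable_iff]
    refine ⟨col, fun a b hab he => ?_⟩
    rcases hcol a b (hle hab) he with h | h
    · simp only [Option.some.injEq, Prod.mk.injEq] at h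
      rw [h.1, h.2] at hh
      exact hh hab
    · simp only [Option.some.injEq, Prod.mk.injEq] at h
      rw [h.1, h.2] at hh
      exact hh hab.symm
  let e : Fin (Fintype.card H'.support) ≃ H'.support := (Fintype.equivFin _).symm
  let f : Fin (Fintype.card H'.support) → W := fun i => (e i).1
  have finj : Function.Injective f := Subtype.val_injective.comp e.injective
  have fsurj : ∀ a b, H'.Adj a b → ∃ i, f i = a := fun a b hab =>
    ⟨e.symm ⟨a, b, hab⟩, by simp [f]⟩
  let G : SimpleGraph (Fin (Fintype.card H'.support)) := H'.comap f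
  have Gn : ¬ G.Colorable 3 := by
    rw [colorable_iff]
    rintro ⟨c, hc⟩
    apply hmin.prop
    rw [colorable_iff]
    refine ⟨Function.extend f c (fun _ => 0), fun a b hab => ?_⟩
    obtain ⟨i, rfl⟩ := fsurj a b hab
    obtain ⟨j, rfl⟩ := fsurj b _ hab.symm
    rw [finj.extend_apply, finj.extend_apply]
    exact hc i j hab
  have Gc : ∀ e ∈ G.edgeSet, (G.deleteEdges {e}).Colorable 3 := by
    intro e he
    induction e using Sym2.ind with
    | _ i j =>
      obtain ⟨c, hc⟩ := (colorable_iff _ _).1 (hcrit s(f i, f j) he)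
      rw [colorable_iff]
      refine ⟨fun k => c (f k), fun a b hab => hc _ _ ?_⟩
      rw [deleteEdges_adj] at hab ⊢
      refine ⟨hab.1, fun h => hab.2 ?_⟩
      simp only [Set.mem_singleton_iff, Sym2.eq_iff, finj.eq_iff] at h ⊢
      exact h
  refine ⟨_, Fintype.card_subtype_le _, G, ?_, ?_, ?_, Gc, ?_⟩
  · refine TriFree.cliqueFree fun a b c h1 h2 h3 => htri _ _ _ (hle h1) (hle h2) (hle h3)
  · refine (chromaticNumber_eq_iff_colorable_not_colorable (n := 3)).2 ⟨?_, Gn⟩
    have : ∃ i j, G.Adj i j := by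
      by_contra hh
      apply Gn
      rw [colorable_iff]
      exact ⟨fun _ => 0, fun a b hab => absurd ⟨a, b, hab⟩ hh⟩
    obtain ⟨i, j, hij⟩ := this
    obtain ⟨c, hc⟩ := (colorable_iff _ _).1 (Gc s(i, j) hij)
    rw [colorable_iff]
    refine ⟨fun k => if k = i then Fin.last 3 else (c k).castSucc, fun a b hab => ?_⟩
    by_cases ha : a = i <;> by_cases hb : b = i
    · rw [ha, hb] at hab
      exact absurd hab G.irrefl
    · simp only [ha, hb, if_true, if_false]
      exact (Fin.castSucc_lt_last _).ne'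
    · simp only [ha, hb, if_true, if_false]
      exact (Fin.castSucc_lt_last _).ne
    · simp only [ha, hb, if_false]
      intro h
      refine hc a b ?_ (Fin.castSucc_injective _ h)
      rw [deleteEdges_adj]
      refine ⟨hab, ?_⟩
      simp only [Set.mem_singleton_iff, Sym2.eq_iff]
      tauto
  · intro i
    obtain ⟨b, hb⟩ := (e i).2
    obtain ⟨j, rfl⟩ := fsurj b _ hb.symm
    exact ⟨j, hb⟩
  · have h1 : Set.range (fun k => s(p k, q k)) ⊆ Sym2.map f '' G.edgeSet := by
      rintro _ ⟨k, rfl⟩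
      obtain ⟨i, hi⟩ := fsurj _ _ (hD k)
      obtain ⟨j, hj⟩ := fsurj _ _ (hD k).symm
      refine ⟨s(i, j), ?_, by simp [hi, hj]⟩
      change H'.Adj (f i) (f j)
      rw [hi, hj]
      exact hD k
    calc Fintype.card K = (Set.range (fun k => s(p k, q k))).ncard := by
          rw [Set.ncard_range_of_injective hinj, Nat.card_eq_fintype_card]
      _ ≤ (Sym2.map f '' G.edgeSet).ncard := Set.ncard_le_ncard h1 (Set.toFinite _)
      _ ≤ G.edgeSet.ncard := Set.ncard_image_le (Set.toFinite _)

end Pool.Agent.Lib.MP_7a5332_co
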