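import Mathlib

set_option autoImplicit false

namespace Pool.Agent.Lib.MP_7a5332_co.Dom

open Module Submodule

section alg

variable {A : Type} [CommRing A] [Algebra ℝ A] [FiniteDimensional ℝ A]

lemma ex_gen (P : Submodule ℝ A) :
    ∃ a : Fin (finrank ℝ P) → A, span ℝ (Set.range a) = P := by
  let b := Module.finBasis ℝ P
  refine ⟨fun i => (b i : A), ?_⟩
  have h1 : Set.range (fun i => (b i : A)) = P.subtype '' Set.range b := by
    rw [← Set.range_comp]; rfl
  rw [h1, ← Submodule.map_span, b.span_eq, Submodule.map_top, Submodule.range_subtype]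

lemma fr_mul (P Q : Submodule ℝ A) : finrank ℝ ↥(P * Q) ≤ finrank ℝ P * finrank ℝ Q := by
  obtain ⟨a, ha⟩ := ex_gen P
  obtain ⟨b, hb⟩ := ex_gen Q
  have h1 : P * Q = span ℝ (Set.range
      (fun p : Fin (finrank ℝ P) × Fin (finrank ℝ Q) => a p.1 * b p.2)) := by
    conv_lhs => rw [← ha, ← hb]
    rw [span_mul_span]
    congr 1
    ext z
    constructor
    · rintro ⟨_, ⟨i, rfl⟩, _, ⟨j, rfl⟩, rfl⟩
      exact ⟨(i, j), rfl⟩
    · rintro ⟨⟨i, j⟩, rfl⟩
      exact ⟨_, ⟨i, rfl⟩, _, ⟨j, rfl⟩, rfl⟩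
  rw [h1]
  have h2 := finrank_range_le_card (R := ℝ)
    (fun p : Fin (finrank ℝ P) × Fin (finrank ℝ Q) => a p.1 * b p.2)
  rw [Fintype.card_prod, Fintype.card_fin, Fintype.card_fin] at h2
  exact h2

lemma fr_sq (P : Submodule ℝ A) : finrank ℝ ↥(P * P) ≤ (finrank ℝ P + 1).choose 2 := by
  obtain ⟨a, ha⟩ := ex_gen P
  have h1 : P * P = span ℝ (Set.range (fun s : Sym2 (Fin (finrank ℝ P)) =>
      Sym2.lift ⟨fun i j => a i * a j, fun i j => mul_comm _ _⟩ s)) := by
    conv_lhs => rw [← ha]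
    rw [span_mul_span]
    congr 1
    ext z
    constructor
    · rintro ⟨_, ⟨i, rfl⟩, _, ⟨j, rfl⟩, rfl⟩
      exact ⟨s(i, j), rfl⟩
    · rintro ⟨s, rfl⟩
      induction s using Sym2.ind with
      | _ i j => exact ⟨_, ⟨i, rfl⟩, _, ⟨j, rfl⟩, rfl⟩
  rw [h1]
  have h2 := finrank_range_le_card (R := ℝ) (fun s : Sym2 (Fin (finrank ℝ P)) =>
      Sym2.lift ⟨fun i j => a i * a j, fun i j => mul_comm _ _⟩ s)
  rw [Sym2.card, Fintype.card_fin] at h2
  exact h2

lemma ex_compl {C P : Submodule ℝ A} (h : C ≤ P) :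
    ∃ D : Submodule ℝ A, C ⊔ D = P ∧ finrank ℝ C + finrank ℝ D = finrank ℝ P := by
  obtain ⟨D, hD⟩ := C.exists_isCompl
  have h1 : C ⊔ (D ⊓ P) = P := by
    rw [← sup_inf_assoc_of_le D h, hD.sup_eq_top, top_inf_eq]
  have h2 : C ⊓ (D ⊓ P) = ⊥ := by
    rw [← inf_assoc, hD.inf_eq_bot, bot_inf_eq]
  refine ⟨D ⊓ P, h1, ?_⟩
  have h3 := finrank_sup_add_finrank_inf_eq C (D ⊓ P)
  rw [h1, h2, finrank_bot] at h3
  omega

/-- The product of two subspaces with a common part of dimension `r` loses `r.choose 2`. -/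
lemma fr_prod (P Q : Submodule ℝ A) :
    2 * finrank ℝ ↥(P * Q) + finrank ℝ ↥(P ⊓ Q) * finrank ℝ ↥(P ⊓ Q) ≤
      2 * (finrank ℝ P * finrank ℝ Q) + finrank ℝ ↥(P ⊓ Q) := by
  obtain ⟨P', hP, hP'⟩ := ex_compl (inf_le_left : P ⊓ Q ≤ P)
  obtain ⟨Q', hQ, hQ'⟩ := ex_compl (inf_le_right : P ⊓ Q ≤ Q)
  set C := P ⊓ Q with hC
  have h1 : P * Q = (C * C ⊔ P' * C) ⊔ P * Q' := by
    conv_lhs => rw [← hQ]
    rw [Submodule.mul_sup, ← Submodule.sup_mul, hP]
  have h2 := finrank_add_le_finrank_add_finrank (C * C ⊔ P' * C) (P * Q')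
  have h3 := finrank_add_le_finrank_add_finrank (C * C) (P' * C)
  have h4 := fr_sq C
  have h5 := fr_mul P' C
  have h6 := fr_mul P Q'
  rw [← h1] at h2
  have h7 : 2 * (finrank ℝ C + 1).choose 2 = (finrank ℝ C + 1) * finrank ℝ C := by
    rw [Nat.choose_two_right, Nat.add_sub_cancel]
    exact Nat.mul_div_cancel' (by rw [mul_comm]; exact (Nat.even_mul_succ_self _).two_dvd)
  rw [← hP', ← hQ'] at *
  nlinarith

end alg

lemma arith {e p q r s N : ℕ} (h1 : 2 * e + r * r ≤ 2 * (p * q) + r) (h2 : s + r = p + q)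
    (h3 : s + (p + q) + 1 ≤ N) (hN : 2 ≤ N) : 14 * e ≤ N ^ 2 := by
  have a1 : (2 * e + r * r : ℤ) ≤ 2 * (p * q) + r := by exact_mod_cast h1
  have a2 : (s + r : ℤ) = p + q := by exact_mod_cast h2
  have a3 : (s + (p + q) + 1 : ℤ) ≤ N := by exact_mod_cast h3
  have a4 : (2 : ℤ) ≤ N := by exact_mod_cast hN
  have a5 : (0 : ℤ) ≤ r := by positivity
  have a6 : (0 : ℤ) ≤ p + q := by positivity
  have a7 : (4 * (p * q) : ℤ) ≤ (p + q) ^ 2 := by nlinarith [sq_nonneg ((p : ℤ) - q)]
  have goal : (14 * e : ℤ) ≤ N ^ 2 := by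
    set t : ℤ := p + q with ht
    by_cases hk : 2 * t + 1 - N ≤ 0
    · have : (0 : ℤ) ≤ r * r - r := by
        rcases a5.eq_or_lt with h | h
        · rw [← h]; simp
        · nlinarith
      nlinarith
    · have hk1 : 1 ≤ 2 * t + 1 - N := by omega
      have hk2 : 2 * t + 1 - N ≤ r := by omega
      have : (2 * t + 1 - N) * (2 * t + 1 - N) - (2 * t + 1 - N) ≤ r * r - r := by nlinarith
      nlinarith [sq_nonneg (7 * t - 4 * N + 2)]
  exact_mod_cast goal

/-- Contraction lemma. -/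
lemma contr {V : Type} [Fintype V] {γ : ℝ} (hγ : γ * Fintype.card V < 1) (f : V → ℝ)
    (h0 : ∀ v, 0 ≤ f v) (h : ∀ v, f v ≤ γ * ∑ v', f v') (v : V) : f v = 0 := by
  have h1 : ∑ v, f v ≤ ∑ _v : V, γ * ∑ v', f v' := Finset.sum_le_sum (fun v _ => h v)
  rw [Finset.sum_const, Finset.card_univ, nsmul_eq_mul] at h1
  have h2 : 0 ≤ ∑ v, f v := Finset.sum_nonneg (fun v _ => h0 v)
  have h3 : ∑ v, f v = 0 := by
    by_contra hne
    have : 0 < ∑ v, f v := lt_of_le_of_ne h2 (Ne.symm hne)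
    nlinarith
  exact (Finset.sum_eq_zero_iff_of_nonneg (fun v _ => h0 v)).1 h3 v (Finset.mem_univ v)

/-- Nonnegative solution of the push system. -/
lemma solve {V : Type} [Fintype V] [DecidableEq V] {γ : ℝ} (hγ0 : 0 ≤ γ)
    (hγ : γ * Fintype.card V < 1) (M : V → V → Prop) [∀ v v', Decidable (M v v')] (r : V) :
    ∃ l : V → ℝ, (∀ v, 0 ≤ l v) ∧
      ∀ v, l v = (if v = r then 1 else 0) + γ * ∑ v', if M v v' then l v' else 0 := by
  let T : (V → ℝ) →ₗ[ℝ] (V → ℝ) :=
    { toFun := fun l v => l v - γ * ∑ v', if M v v' then l v' else 0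
      map_add' := fun a b => by
        funext v
        have : ∀ v', (if M v v' then a v' + b v' else 0) =
            (if M v v' then a v' else 0) + (if M v v' then b v' else 0) := by
          intro v'; split_ifs <;> simp
        simp only [Pi.add_apply, this, Finset.sum_add_distrib]
        ring
      map_smul' := fun c a => by
        funext v
        have : ∀ v', (if M v v' then c * a v' else 0) = c * (if M v v' then a v' else 0) := by
          intro v'; split_ifs <;> simp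
        simp only [Pi.smul_apply, smul_eq_mul, RingHom.id_apply, this, ← Finset.mul_sum]
        ring }
  have hinj : Function.Injective T := by
    rw [injective_iff_map_eq_zero]
    intro a ha
    funext v
    have := contr hγ (fun v => |a v|) (fun v => abs_nonneg _) (fun v => by
      have h1 : a v - γ * ∑ v', (if M v v' then a v' else 0) = 0 := congrFun ha v
      rw [sub_eq_zero] at h1
      rw [h1, abs_mul, abs_of_nonneg hγ0]
      refine mul_le_mul_of_nonneg_left ((Finset.abs_sum_le_sum_abs _ _).trans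
        (Finset.sum_le_sum (fun v' _ => ?_))) hγ0
      split_ifs
      · exact le_rfl
      · simp) v
    exact abs_eq_zero.1 this
  obtain ⟨l, hl⟩ := LinearMap.injective_iff_surjective.1 hinj (fun v => if v = r then 1 else 0)
  have hl' : ∀ v, l v = (if v = r then 1 else 0) + γ * ∑ v', if M v v' then l v' else 0 := by
    intro v
    have h1 : l v - γ * ∑ v', (if M v v' then l v' else 0) = if v = r then 1 else 0 :=
      congrFun hl v
    linarith
  refine ⟨l, fun v => ?_, hl'⟩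
  have := contr hγ (fun v => max (-l v) 0) (fun v => le_max_right _ _) (fun v => by
    have h2 : ∑ v', -(if M v v' then l v' else 0) ≤ ∑ v', max (-l v') 0 := by
      refine Finset.sum_le_sum (fun v' _ => ?_)
      split_ifs
      · exact le_max_left _ _
      · simp
    have h3 : 0 ≤ ∑ v', max (-l v') 0 := Finset.sum_nonneg (fun v' _ => le_max_right _ _)
    rw [Finset.sum_neg_distrib] at h2
    have h4 := mul_le_mul_of_nonneg_left h2 hγ0
    refine max_le ?_ (mul_nonneg hγ0 h3)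
    have h5 : (0 : ℝ) ≤ if v = r then 1 else 0 := by split_ifs <;> norm_num
    have h6 := hl' v
    linarith) v
  have h7 := le_max_left (-l v) 0
  linarith

end Pool.Agent.Lib.MP_7a5332_co.Dom
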