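import Mathlib

set_option autoImplicit false

namespace Pool.Agent.Lib.MP_7a5332_co.Up

open Finset

variable {V : Type} [Fintype V] [DecidableEq V]

/-- `χ` is a proper 3-colouring of `G - uw` giving `u` and `w` the same colour. -/
def Col (G : SimpleGraph V) (u w : V) (χ : V → Fin 3) : Prop :=
  χ u = χ w ∧ ∀ x y, G.Adj x y → χ x = χ y → (x = u ∧ y = w) ∨ (x = w ∧ y = u)

/-- Edge-critical for 3-colourability. -/
def Crit (G : SimpleGraph V) : Prop :=
  ¬ G.Colorable 3 ∧ ∀ u w, G.Adj u w → ∃ χ, Col G u w χ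

omit [Fintype V] [DecidableEq V] in
lemma Col.symm {G : SimpleGraph V} {u w : V} {χ : V → Fin 3} (h : Col G u w χ) :
    Col G w u χ :=
  ⟨h.1.symm, fun x y hxy hc => (h.2 x y hxy hc).symm⟩

omit [Fintype V] [DecidableEq V] in
lemma colorable_of {G : SimpleGraph V} (χ : V → Fin 3)
    (h : ∀ x y, G.Adj x y → χ x ≠ χ y) : G.Colorable 3 :=
  ⟨SimpleGraph.Coloring.mk χ (fun {x y} hxy => h x y hxy)⟩

omit [Fintype V] [DecidableEq V] in
lemma crit_of {G : SimpleGraph V} (h1 : ¬ G.Colorable 3)
    (h2 : ∀ e ∈ G.edgeSet, (G.deleteEdges {e}).Colorable 3) : Crit G := by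
  refine ⟨h1, fun u w huw => ?_⟩
  obtain ⟨C⟩ := h2 s(u, w) huw
  have key : ∀ x y, G.Adj x y → C x = C y → (x = u ∧ y = w) ∨ (x = w ∧ y = u) := by
    intro x y hxy hc
    by_contra hne
    have : (G.deleteEdges {s(u, w)}).Adj x y := by
      rw [SimpleGraph.deleteEdges_adj]
      refine ⟨hxy, ?_⟩
      simp only [Set.mem_singleton_iff, Sym2.eq_iff]
      exact hne
    exact C.valid this hc
  refine ⟨C, ?_, key⟩
  by_contra hne
  apply h1
  refine colorable_of C (fun x y hxy hc => ?_)
  rcases key x y hxy hc with ⟨rfl, rfl⟩ | ⟨rfl, rfl⟩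
  · exact hne hc
  · exact hne hc.symm

omit [Fintype V] in
lemma exists_nbr {G : SimpleGraph V} (hG : ¬ G.Colorable 3) {u w : V} {χ : V → Fin 3}
    (h : Col G u w χ) {c : Fin 3} (hc : c ≠ χ w) : ∃ p, G.Adj w p ∧ χ p = c := by
  by_contra hno
  push Not at hno
  apply hG
  refine colorable_of (Function.update χ w c) (fun x y hxy => ?_)
  by_cases hx : x = w
  · subst hx
    have hy : y ≠ x := hxy.ne.symm
    rw [Function.update_self, Function.update_of_ne hy]
    exact fun e => hno y hxy e.symm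
  · by_cases hy : y = w
    · subst hy
      rw [Function.update_self, Function.update_of_ne hx]
      exact hno x hxy.symm
    · rw [Function.update_of_ne hx, Function.update_of_ne hy]
      intro e
      rcases h.2 x y hxy e with ⟨_, h2⟩ | ⟨h1, _⟩
      · exact hy h2
      · exact hx h1

omit [Fintype V] in
lemma clique_third {G : SimpleGraph V} {T : Finset V} (hT : G.IsNClique 3 T) {x y : V}
    (hx : x ∈ T) (hy : y ∈ T) (hxy : x ≠ y) :
    ∃ z, z ≠ x ∧ z ≠ y ∧ T = {x, y, z} ∧ G.Adj x z ∧ G.Adj y z := by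
  have h1 : ((T.erase x).erase y).card = 1 := by
    rw [card_erase_of_mem (mem_erase.2 ⟨hxy.symm, hy⟩), card_erase_of_mem hx, hT.card_eq]
  obtain ⟨z, hz⟩ := card_eq_one.1 h1
  have hzm : z ∈ (T.erase x).erase y := by rw [hz]; exact mem_singleton_self z
  simp only [mem_erase] at hzm
  refine ⟨z, hzm.2.1, hzm.1, ?_, hT.isClique hx hzm.2.2 hzm.2.1.symm,
    hT.isClique hy hzm.2.2 hzm.1.symm⟩
  ext v
  simp only [mem_insert, mem_singleton]
  constructor
  · intro hv
    by_cases h1 : v = x
    · exact Or.inl h1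
    · by_cases h2 : v = y
      · exact Or.inr (Or.inl h2)
      · have : v ∈ (T.erase x).erase y := by simp [h1, h2, hv]
        rw [hz] at this
        exact Or.inr (Or.inr (mem_singleton.1 this))
  · rintro (rfl | rfl | rfl)
    · exact hx
    · exact hy
    · exact hzm.2.2

lemma fin3_sum (i j l k : Fin 3) (h1 : i ≠ j) (h2 : i ≠ l) (h3 : j ≠ l) :
    ((if i = k then (1 : ℚ) else 0) + ((if j = k then 1 else 0) + (if l = k then 1 else 0))) = 1 := by
  fin_cases i <;> fin_cases j <;> fin_cases l <;> fin_cases k <;> simp_all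

lemma fin3_sum2 (i j l k : Fin 3) (h1 : i ≠ j) (h2 : i ≠ l) (h3 : j ≠ l) (h4 : i ≠ k) :
    ((if j = k then (1 : ℚ) else -1) + (if l = k then 1 else -1)) = 0 := by
  fin_cases i <;> fin_cases j <;> fin_cases l <;> fin_cases k <;> simp_all

omit [Fintype V] in
lemma sumA {G : SimpleGraph V} {T : Finset V} (hT : G.IsNClique 3 T) {x y : V}
    (hxy : G.Adj x y) {χ : V → Fin 3} (h : Col G x y χ) :
    ∑ v ∈ T, (if χ v = χ x then (1 : ℚ) else 0) = 1 + (if x ∈ T ∧ y ∈ T then 1 else 0) := by
  by_cases hm : x ∈ T ∧ y ∈ T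
  · obtain ⟨z, hzx, hzy, rfl, hxz, hyz⟩ := clique_third hT hm.1 hm.2 hxy.ne
    rw [if_pos hm, sum_insert (by simp [hxy.ne, hzx.symm]), sum_insert (by simp [hzy.symm]),
      sum_singleton, if_pos rfl, if_pos h.1.symm, if_neg]
    · norm_num
    · intro e
      rcases h.2 x z hxz e.symm with ⟨_, h2⟩ | ⟨h1, _⟩
      · exact hzy h2
      · exact hxy.ne h1
  · rw [if_neg hm]
    obtain ⟨a, b, c, hab, hac, hbc, rfl⟩ := SimpleGraph.is3Clique_iff.1 hT
    have key : ∀ p q, p ∈ ({a, b, c} : Finset V) → q ∈ ({a, b, c} : Finset V) → G.Adj p q →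
        χ p ≠ χ q := by
      intro p q hp hq hpq e
      rcases h.2 p q hpq e with ⟨rfl, rfl⟩ | ⟨rfl, rfl⟩
      · exact hm ⟨hp, hq⟩
      · exact hm ⟨hq, hp⟩
    rw [sum_insert (by simp [hab.ne, hac.ne]), sum_insert (by simp [hbc.ne]), sum_singleton,
      fin3_sum _ _ _ _ (key a b (by simp) (by simp) hab) (key a c (by simp) (by simp) hac)
        (key b c (by simp) (by simp) hbc)]
    norm_num

omit [Fintype V] in
lemma sumB {G : SimpleGraph V} {T : Finset V} (hT : G.IsNClique 3 T) {v a b : V}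
    (hab : G.Adj a b) (hva : G.Adj v a) (hvb : G.Adj v b) {χ : V → Fin 3} (h : Col G a b χ)
    (hv : v ∈ T) :
    ∑ x ∈ T.erase v, (if χ x = χ a then (1 : ℚ) else -1) =
      (if a ∈ T ∧ b ∈ T then 2 else 0) := by
  have hvp : ∀ p, G.Adj v p → χ v ≠ χ p := by
    intro p hp e
    rcases h.2 v p hp e with ⟨h1, _⟩ | ⟨h1, _⟩
    · exact hva.ne h1
    · exact hvb.ne h1
  have hc : (T.erase v).card = 2 := by rw [card_erase_of_mem hv, hT.card_eq]
  obtain ⟨p, q, hpq, he⟩ := card_eq_two.1 hc
  have hp : p ∈ T.erase v := by rw [he]; simp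
  have hq : q ∈ T.erase v := by rw [he]; simp
  rw [mem_erase] at hp hq
  rw [he, sum_insert (by simp [hpq]), sum_singleton]
  by_cases hm : a ∈ T ∧ b ∈ T
  · rw [if_pos hm]
    have ha : a ∈ T.erase v := mem_erase.2 ⟨hva.ne.symm, hm.1⟩
    have hb : b ∈ T.erase v := mem_erase.2 ⟨hvb.ne.symm, hm.2⟩
    rw [he] at ha hb
    simp only [mem_insert, mem_singleton] at ha hb
    have hne := hab.ne
    have h1 := h.1
    rcases ha with rfl | rfl <;> rcases hb with rfl | rfl
    · exact absurd rfl hne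
    · rw [if_pos rfl, if_pos h1.symm]; norm_num
    · rw [if_pos rfl, if_pos h1.symm]; norm_num
    · exact absurd rfl hne
  · rw [if_neg hm]
    have hadj : G.Adj p q := hT.isClique hp.2 hq.2 hpq
    refine fin3_sum2 (χ v) _ _ _ (hvp p (hT.isClique hv hp.2 hp.1.symm))
      (hvp q (hT.isClique hv hq.2 hq.1.symm)) ?_ (hvp a hva)
    intro e
    rcases h.2 p q hadj e with ⟨rfl, rfl⟩ | ⟨rfl, rfl⟩
    · exact hm ⟨hp.2, hq.2⟩
    · exact hm ⟨hq.2, hp.2⟩

open Classical in
/-- A 4-critical graph has at most `n` triangles. -/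
lemma card_triangles {G : SimpleGraph V} (hG : Crit G) :
    (G.cliqueFinset 3).card ≤ Fintype.card V := by
  have hli : LinearIndependent ℚ
      (fun T : (G.cliqueFinset 3) => (fun v : V => if v ∈ T.1 then (1 : ℚ) else 0)) := by
    rw [Fintype.linearIndependent_iff]
    intro g hg
    have hT : ∀ T : (G.cliqueFinset 3), G.IsNClique 3 T.1 := fun T =>
      SimpleGraph.mem_cliqueFinset_iff.1 T.2
    have H0 : ∀ v, ∑ T, g T * (if v ∈ T.1 then (1 : ℚ) else 0) = 0 := by
      intro v
      have := congrFun hg v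
      simpa [Finset.sum_apply] using this
    have H1 : ∀ f : V → ℚ, ∑ T, g T * ∑ v ∈ T.1, f v = 0 := by
      intro f
      have : ∑ v, f v * ∑ T, g T * (if v ∈ T.1 then (1 : ℚ) else 0) = 0 := by
        simp only [H0, mul_zero, sum_const_zero]
      rw [← this]
      simp only [mul_sum]
      rw [sum_comm]
      refine sum_congr rfl (fun T _ => ?_)
      rw [← sum_filter_add_sum_filter_not univ (fun v => v ∈ T.1)]
      have e1 : univ.filter (fun v => v ∈ T.1) = T.1 := by ext; simp
      rw [e1]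
      have e2 : ∑ v ∈ univ.filter (fun v => ¬ v ∈ T.1),
          f v * (g T * if v ∈ T.1 then (1 : ℚ) else 0) = 0 := by
        refine sum_eq_zero (fun v hv => ?_)
        rw [if_neg (mem_filter.1 hv).2]; ring
      rw [e2, add_zero]
      refine sum_congr rfl (fun v hv => ?_)
      rw [if_pos hv]; ring
    have Hs : ∑ T, g T = 0 := by
      have := H1 (fun _ => 1)
      simp only [sum_const, (hT _).card_eq, nsmul_eq_mul, mul_one, ← sum_mul] at this
      have h3 : ((3 : ℕ) : ℚ) ≠ 0 := by norm_num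
      exact (mul_eq_zero.1 this).resolve_right h3
    have H2 : ∀ x y, x ≠ y → ∑ T, g T * (if x ∈ T.1 ∧ y ∈ T.1 then (1 : ℚ) else 0) = 0 := by
      intro x y hne
      by_cases hxy : G.Adj x y
      · obtain ⟨χ, hχ⟩ := hG.2 x y hxy
        have := H1 (fun v => if χ v = χ x then 1 else 0)
        simp only [sumA (hT _) hxy hχ, mul_add, mul_one, sum_add_distrib, Hs, zero_add] at this
        exact this
      · refine sum_eq_zero (fun T _ => ?_)
        rw [if_neg, mul_zero]
        exact fun hm => hxy ((hT T).isClique hm.1 hm.2 hne)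
    intro T0
    obtain ⟨v, a, b, hva, hvb, hab, hT0⟩ := SimpleGraph.is3Clique_iff.1 (hT T0)
    obtain ⟨χ, hχ⟩ := hG.2 a b hab
    have H3 : ∑ x ∈ univ.erase v, (if χ x = χ a then (1 : ℚ) else -1) *
        ∑ T, g T * (if v ∈ T.1 ∧ x ∈ T.1 then (1 : ℚ) else 0) = 0 := by
      refine sum_eq_zero (fun x hx => ?_)
      rw [H2 v x (mem_erase.1 hx).1.symm, mul_zero]
    simp only [mul_sum] at H3
    rw [sum_comm] at H3
    have H4 : ∀ T : (G.cliqueFinset 3), ∑ x ∈ univ.erase v, (if χ x = χ a then (1 : ℚ) else -1) *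
        (g T * (if v ∈ T.1 ∧ x ∈ T.1 then (1 : ℚ) else 0)) = if T = T0 then 2 * g T else 0 := by
      intro T
      by_cases hv : v ∈ T.1
      · have e1 : ∑ x ∈ univ.erase v, (if χ x = χ a then (1 : ℚ) else -1) *
            (g T * (if v ∈ T.1 ∧ x ∈ T.1 then (1 : ℚ) else 0)) =
            g T * ∑ x ∈ T.1.erase v, (if χ x = χ a then (1 : ℚ) else -1) := by
          rw [mul_sum, ← sum_subset (s₁ := T.1.erase v) (s₂ := univ.erase v)
            (erase_subset_erase v (subset_univ _))]
          · refine sum_congr rfl (fun x hx => ?_)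
            rw [if_pos (And.intro hv (mem_erase.1 hx).2)]; ring
          · intro x hx hx'
            rw [if_neg (fun hm : v ∈ T.1 ∧ x ∈ T.1 =>
              hx' (mem_erase.2 ⟨(mem_erase.1 hx).1, hm.2⟩))]; ring
        rw [e1, sumB (hT T) hab hva hvb hχ hv]
        by_cases hm : a ∈ T.1 ∧ b ∈ T.1
        · have : T = T0 := by
            apply Subtype.ext
            symm
            apply eq_of_subset_of_card_le
            · rw [hT0]; intro x hx
              simp only [mem_insert, mem_singleton] at hx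
              rcases hx with rfl | rfl | rfl
              · exact hv
              · exact hm.1
              · exact hm.2
            · rw [(hT T).card_eq, (hT T0).card_eq]
          rw [if_pos hm, if_pos this]; ring
        · have : T ≠ T0 := by
            rintro rfl
            apply hm; rw [hT0]; simp
          rw [if_neg hm, if_neg this]; ring
      · have : T ≠ T0 := by
          rintro rfl
          apply hv; rw [hT0]; simp
        rw [if_neg this]
        refine sum_eq_zero (fun x _ => ?_)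
        rw [if_neg (fun hm : v ∈ T.1 ∧ _ => hv hm.1)]; ring
    simp only [H4, sum_ite_eq', mem_univ, if_true] at H3
    linarith
  have := hli.fintype_card_le_finrank
  rw [Fintype.card_coe, Module.finrank_fintype_fun_eq_card] at this
  exact this

end Pool.Agent.Lib.MP_7a5332_co.Up
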