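import Pool.Agent.Lib.MP_7a5332_co.DomAlg
import Pool.Agent.Lib.MP_7a5332_co.UpBase

set_option autoImplicit false

namespace Pool.Agent.Lib.MP_7a5332_co.Dom

open Module Submodule Pool.Agent.Lib.MP_7a5332_co.Up

variable {V : Type} [Fintype V] [DecidableEq V]

lemma ex_perm : ∀ a b c : Fin 3, a ≠ b → a ≠ c → b ≠ c →
    ∃ σ : Fin 3 → Fin 3, (∀ s t, σ s = σ t → s = t) ∧ σ a = 0 ∧ σ b = 1 ∧ σ c = 2 := by
  decide

lemma third3 : ∀ a d c t : Fin 3, d ≠ a → c ≠ a → c ≠ d → t ≠ a → t ≠ d → t = c := by decide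

lemma cyc3 : ∀ a c t : Fin 3, c ≠ a → c ≠ a + 1 → (t = a ∨ t = a + 1 ∨ t = c) ∧ a ≠ a + 1 := by
  decide

omit [Fintype V] [DecidableEq V] in
lemma col_comp {G : SimpleGraph V} {u w : V} {χ : V → Fin 3} (h : Col G u w χ)
    {σ : Fin 3 → Fin 3} (hσ : ∀ s t, σ s = σ t → s = t) : Col G u w (fun v => σ (χ v)) :=
  ⟨congrArg σ h.1, fun x y hxy hc => h.2 x y hxy (hσ _ _ hc)⟩

open Classical in
/-- Push weights of one colouring `φ` of `G - xy` against the reference colouring `δ`. -/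
lemma weights {G : SimpleGraph V} (hG : ¬ G.Colorable 3) {u w x y : V} {δ φ : V → Fin 3}
    (hδ : Col G u w δ) (hφ : Col G x y φ) (hu : φ u ≠ δ u) (hw : φ w ≠ δ w)
    (hx : φ x ≠ δ x) (hy : φ y ≠ δ y) {γ : ℝ} (hγ0 : 0 < γ) (hγ : γ * Fintype.card V < 1) :
    ∃ l : V → ℝ, (∀ v, φ v = δ v → l v = 0) ∧ l x ≠ 0 ∧ l y ≠ 0 ∧
      ∀ v, v ≠ u → l v = γ * ∑ v', if G.Adj v v' ∧ φ v' = δ v then l v' else 0 := by
  obtain ⟨l, h0, hl⟩ := solve hγ0.le hγ (fun v v' => G.Adj v v' ∧ φ v' = δ v) u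
  have hnn : ∀ v v', 0 ≤ (if G.Adj v v' ∧ φ v' = δ v then l v' else 0) := by
    intro v v'; split_ifs
    · exact h0 v'
    · exact le_rfl
  have hlu : l u ≠ 0 := by
    have h1 := hl u
    rw [if_pos rfl] at h1
    have h2 := mul_nonneg hγ0.le (Finset.sum_nonneg (fun v' (_ : v' ∈ Finset.univ) => hnn u v'))
    intro h3
    linarith
  have hpush : ∀ a b, l a = 0 → G.Adj a b → φ b = δ a → l b = 0 := by
    intro a b ha hab hc
    have hau : a ≠ u := fun h => hlu (h ▸ ha)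
    have h1 := hl a
    rw [if_neg hau, zero_add, ha] at h1
    have h2 := (mul_eq_zero.1 h1.symm).resolve_left hγ0.ne'
    have h3 := (Finset.sum_eq_zero_iff_of_nonneg (fun v' _ => hnn a v')).1 h2 b (Finset.mem_univ b)
    rwa [if_pos ⟨hab, hc⟩] at h3
  have hend : l x ≠ 0 ∧ l y ≠ 0 := by
    by_contra hne
    apply hG
    refine colorable_of (fun v => if φ v ≠ δ v ∧ l v = 0 then δ v else φ v) ?_
    have mixed : ∀ a b, G.Adj a b → (φ a ≠ δ a ∧ l a = 0) → ¬ (φ b ≠ δ b ∧ l b = 0) →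
        δ a ≠ φ b := by
      intro a b hab ha hb hc
      have h1 := hpush a b ha.2 hab hc.symm
      have h2 : φ b = δ b := by
        by_contra h3
        exact hb ⟨h3, h1⟩
      rcases hδ.2 a b hab (hc.trans h2) with ⟨_, rfl⟩ | ⟨_, rfl⟩
      · exact hw h2
      · exact hu h2
    intro a b hab
    by_cases ha : φ a ≠ δ a ∧ l a = 0 <;> by_cases hb : φ b ≠ δ b ∧ l b = 0
    · rw [if_pos ha, if_pos hb]
      intro hc
      rcases hδ.2 a b hab hc with ⟨rfl, _⟩ | ⟨_, rfl⟩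
      · exact hlu ha.2
      · exact hlu hb.2
    · rw [if_pos ha, if_neg hb]
      exact mixed a b hab ha hb
    · rw [if_neg ha, if_pos hb]
      exact (mixed b a hab.symm hb ha).symm
    · rw [if_neg ha, if_neg hb]
      intro hc
      apply hne
      rcases hφ.2 a b hab hc with ⟨rfl, rfl⟩ | ⟨rfl, rfl⟩
      · exact ⟨fun h => ha ⟨hx, h⟩, fun h => hb ⟨hy, h⟩⟩
      · exact ⟨fun h => hb ⟨hx, h⟩, fun h => ha ⟨hy, h⟩⟩
  refine ⟨l, fun v hv => ?_, hend.1, hend.2, fun v hv => ?_⟩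
  · have hvu : v ≠ u := fun h => hu (h ▸ hv)
    rw [hl v, if_neg hvu, zero_add, Finset.sum_eq_zero, mul_zero]
    intro v' _
    rw [if_neg]
    rintro ⟨h1, h2⟩
    rcases hφ.2 v v' h1 (hv.trans h2.symm) with ⟨rfl, _⟩ | ⟨rfl, _⟩
    · exact hx hv
    · exact hy hv
  · have h1 := hl v
    rw [if_neg hv, zero_add] at h1
    exact h1

open Classical in
lemma core {G : SimpleGraph V} (hG : Crit G) {u w : V} (huw : G.Adj u w) (X Y : Finset V)
    (hX : ∀ x ∈ X, G.Adj u x) (hY : ∀ y ∈ Y, G.Adj w y) {δ : V → Fin 3} (hδ : Col G u w δ)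
    (du : δ u = 0) (dX : ∀ x ∈ X, δ x = 2) (dY : ∀ y ∈ Y, δ y = 1) :
    14 * Fintype.card {p : V × V // p.1 ∈ X ∧ p.2 ∈ Y ∧ G.Adj p.1 p.2} ≤ Fintype.card V ^ 2 := by
  have dw : δ w = 0 := hδ.1 ▸ du
  have uX : u ∉ X := fun h => by have := dX u h; rw [du] at this; exact absurd this (by decide)
  have uY : u ∉ Y := fun h => by have := dY u h; rw [du] at this; exact absurd this (by decide)
  have wX : w ∉ X := fun h => by have := dX w h; rw [dw] at this; exact absurd this (by decide)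
  have wY : w ∉ Y := fun h => by have := dY w h; rw [dw] at this; exact absurd this (by decide)
  have hXY : Disjoint X Y := Finset.disjoint_left.2 (fun v h1 h2 => by
    have := dX v h1; rw [dY v h2] at this; exact absurd this (by decide))
  set Ed := {p : V × V // p.1 ∈ X ∧ p.2 ∈ Y ∧ G.Adj p.1 p.2} with hEd
  have hn : 2 ≤ Fintype.card V := by
    have : Nontrivial V := ⟨⟨u, w, huw.ne⟩⟩
    exact Fintype.one_lt_card
  set γ : ℝ := 1 / (2 * Fintype.card V) with hγd
  have hnpos : (0 : ℝ) < Fintype.card V := by exact_mod_cast (by omega : 0 < Fintype.card V)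
  have hγ0 : 0 < γ := by positivity
  have hγ : γ * Fintype.card V < 1 := by
    rw [hγd]; field_simp; norm_num
  have avoid : ∀ (e : Ed) (χ : V → Fin 3), Col G e.1.1 e.1.2 χ → ∀ a b, a ∉ X → a ∉ Y →
      G.Adj a b → χ a ≠ χ b := by
    intro e χ hχ a b h1 h2 hab hc
    rcases hχ.2 a b hab hc with ⟨rfl, _⟩ | ⟨rfl, _⟩
    · exact h1 e.2.1
    · exact h2 e.2.2.1
  have hφ : ∀ e : Ed, ∃ φ : V → Fin 3, Col G e.1.1 e.1.2 φ ∧ φ e.1.1 = 0 ∧ φ u = 1 ∧ φ w = 2 := by
    intro e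
    obtain ⟨χ, hχ⟩ := hG.2 _ _ e.2.2.2
    obtain ⟨σ, hσ, s0, s1, s2⟩ := ex_perm (χ e.1.1) (χ u) (χ w)
      (avoid e χ hχ u _ uX uY (hX _ e.2.1)).symm
      (hχ.1 ▸ (avoid e χ hχ w _ wX wY (hY _ e.2.2.1)).symm)
      (avoid e χ hχ u w uX uY huw)
    exact ⟨fun v => σ (χ v), col_comp hχ hσ, s0, s1, s2⟩
  choose φ φc φx φu φw using hφ
  have φy : ∀ e : Ed, φ e e.1.2 = 0 := fun e => (φc e).1 ▸ φx e
  have φX : ∀ e : Ed, ∀ x ∈ X, φ e x ≠ 1 := fun e x hx =>
    φu e ▸ (avoid e _ (φc e) u x uX uY (hX x hx)).symm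
  have φY : ∀ e : Ed, ∀ y ∈ Y, φ e y ≠ 2 := fun e y hy =>
    φw e ▸ (avoid e _ (φc e) w y wX wY (hY y hy)).symm
  have hl : ∀ e : Ed, ∃ l : V → ℝ, (∀ v, φ e v = δ v → l v = 0) ∧ l e.1.1 ≠ 0 ∧ l e.1.2 ≠ 0 ∧
      ∀ v, v ≠ u → l v = γ * ∑ v', if G.Adj v v' ∧ φ e v' = δ v then l v' else 0 := by
    intro e
    refine weights hG.1 hδ (φc e) ?_ ?_ ?_ ?_ hγ0 hγ
    · rw [φu, du]; decide
    · rw [φw, dw]; decide
    · rw [φx, dX _ e.2.1]; decide
    · rw [φy, dY _ e.2.2.1]; decide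
  choose l l0 lx ly leq using hl
  let T : V → Ed → ℝ := fun v e => l e v
  let L : V → Fin 3 → Ed → ℝ := fun v c e => if φ e v = c then l e v else 0
  have Teq : ∀ v, v ≠ u → T v = γ • ∑ v', if G.Adj v v' then L v' (δ v) else 0 := by
    intro v hv
    funext e
    simp only [T, Pi.smul_apply, Finset.sum_apply, smul_eq_mul]
    rw [leq e v hv]
    congr 1
    refine Finset.sum_congr rfl (fun v' _ => ?_)
    by_cases h1 : G.Adj v v'
    · simp only [h1, true_and, if_true, L]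
    · simp only [h1, false_and, if_false, Pi.zero_apply]
  let R : Finset V := Finset.univ \ (X ∪ Y ∪ {u, w})
  let z : Option R → Ed → ℝ := fun o => o.elim (T u) (fun v => L v.1 (δ v.1 + 1))
  let Z : Submodule ℝ (Ed → ℝ) := span ℝ (Set.range z)
  have hZ : finrank ℝ Z + (X.card + Y.card) + 1 ≤ Fintype.card V := by
    have h1 : finrank ℝ Z ≤ Fintype.card (Option R) := finrank_range_le_card (R := ℝ) z
    rw [Fintype.card_option, Fintype.card_coe] at h1
    have h2 : (X ∪ Y ∪ {u, w}).card = X.card + Y.card + 2 := by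
      rw [Finset.card_union_of_disjoint, Finset.card_union_of_disjoint hXY,
        Finset.card_pair huw.ne]
      rw [Finset.disjoint_right]
      intro v hv
      simp only [Finset.mem_insert, Finset.mem_singleton] at hv
      rcases hv with rfl | rfl <;> simp [uX, uY, wX, wY]
    have h3 : R.card + (X ∪ Y ∪ {u, w}).card = Fintype.card V := by
      rw [← Finset.card_univ]
      exact Finset.card_sdiff_add_card_eq_card (Finset.subset_univ _)
    omega
  have TZ : ∀ v, T v ∈ Z := by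
    intro v0
    by_contra hv0
    obtain ⟨θ, hθ, hker⟩ := Submodule.exists_le_ker_of_notMem hv0
    have θz : ∀ o, θ (z o) = 0 := fun o => hker (subset_span ⟨o, rfl⟩)
    have Lδ : ∀ v, L v (δ v) = 0 := by
      intro v; funext e
      simp only [L, Pi.zero_apply]
      split_ifs with h
      · exact l0 e v h
      · rfl
    have two : ∀ v d, d ≠ δ v → (∀ e, φ e v ≠ d) → ∀ c, L v c = 0 ∨ L v c = T v := by
      intro v d hd hv c
      by_cases h1 : c = δ v
      · left; rw [h1]; exact Lδ v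
      by_cases h2 : c = d
      · left; funext e
        simp only [L, Pi.zero_apply]
        rw [if_neg (h2 ▸ hv e)]
      · right; funext e
        simp only [L, T]
        split_ifs with h3
        · rfl
        · refine (l0 e v ?_).symm
          by_contra h4
          exact h3 (third3 (δ v) d c _ hd h1 h2 h4 (hv e))
    have key : ∀ v c, θ (L v c) = 0 ∨ θ (L v c) = θ (T v) := by
      intro v c
      by_cases hR : v ∈ R
      · by_cases h1 : c = δ v
        · left; rw [h1, Lδ, map_zero]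
        by_cases h2 : c = δ v + 1
        · left; rw [h2]; exact θz (some ⟨v, hR⟩)
        · right
          have h3 : L v c = T v - L v (δ v + 1) := by
            funext e
            obtain ⟨h4, h5⟩ := cyc3 (δ v) c (φ e v) h1 h2
            simp only [L, T, Pi.sub_apply]
            rcases h4 with h4 | h4 | h4
            · rw [l0 e v h4]; simp
            · rw [if_neg (by rw [h4]; exact fun h => h2 h.symm), if_pos h4, sub_self]
            · rw [if_pos h4, if_neg (by rw [h4]; exact h2), sub_zero]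
          have h6 : θ (L v (δ v + 1)) = 0 := θz (some ⟨v, hR⟩)
          rw [h3, map_sub, h6, sub_zero]
      · have h1 : ∃ d, d ≠ δ v ∧ ∀ e, φ e v ≠ d := by
          simp only [R, Finset.mem_sdiff, Finset.mem_univ, true_and, not_not, Finset.mem_union,
            Finset.mem_insert, Finset.mem_singleton] at hR
          rcases hR with (h | h) | rfl | rfl
          · exact ⟨1, by rw [dX v h]; decide, fun e => φX e v h⟩
          · exact ⟨2, by rw [dY v h]; decide, fun e => φY e v h⟩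
          · exact ⟨2, by rw [du]; decide, fun e => by rw [φu]; decide⟩
          · exact ⟨1, by rw [dw]; decide, fun e => by rw [φw]; decide⟩
        obtain ⟨d, h2, h3⟩ := h1
        rcases two v d h2 h3 c with h | h
        · left; rw [h, map_zero]
        · right; rw [h]
    have := contr hγ (fun v => |θ (T v)|) (fun v => abs_nonneg _) (fun v => by
      by_cases hv : v = u
      · have h1 : θ (T u) = 0 := θz none
        rw [hv, h1, abs_zero]
        exact mul_nonneg hγ0.le (Finset.sum_nonneg (fun _ _ => abs_nonneg _))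
      · rw [Teq v hv, map_smul, map_sum, smul_eq_mul, abs_mul, abs_of_pos hγ0]
        refine mul_le_mul_of_nonneg_left ((Finset.abs_sum_le_sum_abs _ _).trans
          (Finset.sum_le_sum (fun v' _ => ?_))) hγ0.le
        split_ifs
        · rcases key v' (δ v) with h | h
          · rw [h, abs_zero]; exact abs_nonneg _
          · rw [h]
        · rw [map_zero, abs_zero]; exact abs_nonneg _) v0
    exact hθ (abs_eq_zero.1 this)
  let P : Submodule ℝ (Ed → ℝ) := span ℝ (Set.range (fun x : X => T x.1))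
  let Q : Submodule ℝ (Ed → ℝ) := span ℝ (Set.range (fun y : Y => T y.1))
  have hp : finrank ℝ P ≤ X.card := by
    have := finrank_range_le_card (R := ℝ) (fun x : X => T x.1)
    rwa [Fintype.card_coe] at this
  have hq : finrank ℝ Q ≤ Y.card := by
    have := finrank_range_le_card (R := ℝ) (fun y : Y => T y.1)
    rwa [Fintype.card_coe] at this
  have hs : finrank ℝ ↥(P ⊔ Q) ≤ finrank ℝ Z := by
    refine Submodule.finrank_mono (sup_le ?_ ?_) <;> rw [span_le] <;> rintro _ ⟨v, rfl⟩ <;>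
      exact TZ _
  have htop : P * Q = ⊤ := by
    rw [eq_top_iff, ← (Pi.basisFun ℝ Ed).span_eq, span_le]
    rintro _ ⟨e, rfl⟩
    have h1 : T e.1.1 * T e.1.2 ∈ P * Q :=
      mul_mem_mul (subset_span ⟨⟨_, e.2.1⟩, rfl⟩) (subset_span ⟨⟨_, e.2.2.1⟩, rfl⟩)
    have h2 : Pi.basisFun ℝ Ed e = (l e e.1.1 * l e e.1.2)⁻¹ • (T e.1.1 * T e.1.2) := by
      funext e'
      simp only [Pi.basisFun_apply, Pi.smul_apply, Pi.mul_apply, T, smul_eq_mul]
      by_cases h : e' = e
      · subst h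
        rw [Pi.single_eq_same, inv_mul_cancel₀ (mul_ne_zero (lx e') (ly e'))]
      · rw [Pi.single_eq_of_ne h]
        symm
        refine mul_eq_zero_of_right _ ?_
        by_contra hne
        obtain ⟨n1, n2⟩ := mul_ne_zero_iff.1 hne
        have c1 : φ e' e.1.1 = 0 := third3 2 1 0 _ (by decide) (by decide) (by decide)
          (fun h => n1 (l0 e' _ (h.trans (dX _ e.2.1).symm))) (φX e' _ e.2.1)
        have c2 : φ e' e.1.2 = 0 := third3 1 2 0 _ (by decide) (by decide) (by decide)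
          (fun h => n2 (l0 e' _ (h.trans (dY _ e.2.2.1).symm))) (φY e' _ e.2.2.1)
        rcases (φc e').2 _ _ e.2.2.2 (c1.trans c2.symm) with ⟨a1, a2⟩ | ⟨a1, _⟩
        · exact h (Subtype.ext (Prod.ext a1 a2)).symm
        · exact Finset.disjoint_left.1 hXY e.2.1 (a1 ▸ e'.2.2.1)
    rw [SetLike.mem_coe, h2]
    exact smul_mem _ _ h1
  have h1 := fr_prod P Q
  rw [htop, finrank_top, Module.finrank_fintype_fun_eq_card] at h1
  exact arith h1 (finrank_sup_add_finrank_inf_eq P Q) (by omega) hn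

open Classical in
theorem dominated {G : SimpleGraph V} (hG : Crit G) {u w : V} (huw : G.Adj u w) (X Y : Set V)
    (hX : ∀ x ∈ X, G.Adj u x ∧ x ≠ w) (hY : ∀ y ∈ Y, G.Adj w y ∧ y ≠ u) (hXY : Disjoint X Y)
    (hc : ((G.between X Y).induce (X ∪ Y)).Connected) :
    14 * (G.between X Y).edgeSet.ncard ≤ Fintype.card V ^ 2 := by
  by_cases hE : ∃ x ∈ X, ∃ y ∈ Y, G.Adj x y
  swap
  · have : (G.between X Y).edgeSet = ∅ := by
      ext e
      induction e using Sym2.ind with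
      | _ a b =>
        simp only [SimpleGraph.mem_edgeSet, SimpleGraph.between_adj, Set.mem_empty_iff_false,
          iff_false]
        rintro ⟨h, ⟨h1, h2⟩ | ⟨h1, h2⟩⟩
        · exact hE ⟨a, h1, b, h2, h⟩
        · exact hE ⟨b, h2, a, h1, h.symm⟩
    rw [this]; simp
  obtain ⟨x0, hx0, y0, hy0, h0⟩ := hE
  obtain ⟨χ, hχ⟩ := hG.2 u w huw
  have cX : ∀ x ∈ X, χ u ≠ χ x := by
    intro x hx h
    rcases hχ.2 u x (hX x hx).1 h with ⟨_, h1⟩ | ⟨h1, _⟩
    · exact (hX x hx).2 h1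
    · exact huw.ne h1
  have cY : ∀ y ∈ Y, χ u ≠ χ y := by
    intro y hy h
    rcases hχ.2 w y (hY y hy).1 (hχ.1.symm.trans h) with ⟨h1, _⟩ | ⟨_, h1⟩
    · exact huw.ne h1.symm
    · exact (hY y hy).2 h1
  have cXY : ∀ x ∈ X, ∀ y ∈ Y, G.Adj x y → χ y ≠ χ x := by
    intro x hx y _ hxy h
    rcases hχ.2 x y hxy h.symm with ⟨h1, _⟩ | ⟨h1, _⟩
    · exact (hX x hx).1.ne h1.symm
    · exact (hX x hx).2 h1
  obtain ⟨σ, hσ, s0, s1, s2⟩ := ex_perm (χ u) (χ y0) (χ x0) (cY y0 hy0) (cX x0 hx0)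
    (cXY x0 hx0 y0 hy0 h0)
  have good : ∀ v : ↥(X ∪ Y), (v.1 ∈ X → χ v.1 = χ x0) ∧ (v.1 ∈ Y → χ v.1 = χ y0) := by
    intro v
    have hr := (SimpleGraph.reachable_iff_reflTransGen _ _).1 (hc.preconnected ⟨x0, Or.inl hx0⟩ v)
    induction hr with
    | refl => exact ⟨fun _ => rfl, fun h => absurd h (Set.disjoint_left.1 hXY hx0)⟩
    | @tail a b _ hab ih =>
      obtain ⟨h, ⟨h1, h2⟩ | ⟨h1, h2⟩⟩ := hab
      · refine ⟨fun h3 => absurd h2 (Set.disjoint_left.1 hXY h3), fun _ => ?_⟩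
        exact third3 (χ u) (χ x0) (χ y0) _ (cX x0 hx0).symm (cY y0 hy0).symm
          (cXY x0 hx0 y0 hy0 h0) (cY _ h2).symm (ih.1 h1 ▸ cXY _ h1 _ h2 h)
      · refine ⟨fun _ => ?_, fun h3 => absurd h3 (Set.disjoint_left.1 hXY h2)⟩
        exact third3 (χ u) (χ y0) (χ x0) _ (cY y0 hy0).symm (cX x0 hx0).symm
          (cXY x0 hx0 y0 hy0 h0).symm (cX _ h2).symm (ih.2 h1 ▸ (cXY _ h2 _ h1 h.symm).symm)
  have hcore := core hG huw X.toFinset Y.toFinset
    (fun x hx => (hX x (Set.mem_toFinset.1 hx)).1) (fun y hy => (hY y (Set.mem_toFinset.1 hy)).1)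
    (col_comp hχ hσ) s0
    (fun x hx => by
      have h1 := Set.mem_toFinset.1 hx
      have h2 := (good ⟨x, Or.inl h1⟩).1 h1
      exact (congrArg σ h2).trans s2)
    (fun y hy => by
      have h1 := Set.mem_toFinset.1 hy
      have h2 := (good ⟨y, Or.inr h1⟩).2 h1
      exact (congrArg σ h2).trans s1)
  refine le_trans (Nat.mul_le_mul_left _ ?_) hcore
  have h1 : (G.between X Y).edgeSet ⊆ Set.range (fun p : {p : V × V //
      p.1 ∈ X.toFinset ∧ p.2 ∈ Y.toFinset ∧ G.Adj p.1 p.2} => s(p.1.1, p.1.2)) := by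
    intro e he
    induction e using Sym2.ind with
    | _ a b =>
      obtain ⟨h, ⟨h1, h2⟩ | ⟨h1, h2⟩⟩ := he
      · exact ⟨⟨(a, b), Set.mem_toFinset.2 h1, Set.mem_toFinset.2 h2, h⟩, rfl⟩
      · exact ⟨⟨(b, a), Set.mem_toFinset.2 h2, Set.mem_toFinset.2 h1, h.symm⟩, Sym2.eq_swap⟩
  refine (Set.ncard_le_ncard h1 (Set.toFinite _)).trans ?_
  rw [← Set.image_univ]
  refine (Set.ncard_image_le (Set.toFinite _)).trans ?_
  rw [Set.ncard_univ, Nat.card_eq_fintype_card]

end Pool.Agent.Lib.MP_7a5332_co.Dom
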