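import Mathlib

set_option autoImplicit false

namespace Pool.Agent.Lib.MP_7a5332_co

open SimpleGraph

def gE : List (Fin 10 × Fin 10) :=
  [(1, 2), (2, 3), (3, 4), (4, 5), (5, 1), (6, 1), (6, 3), (7, 2), (7, 4), (8, 3), (8, 5),
    (9, 4), (9, 1), (0, 6), (0, 7), (0, 8), (0, 9)]

def gA (k l : Fin 10) : Prop := (k, l) ∈ gE ∨ (l, k) ∈ gE

instance (k l : Fin 10) : Decidable (gA k l) := by unfold gA; infer_instance

theorem gA_irrefl : ∀ k, ¬ gA k k := by decide

theorem gA_tri : ∀ k l m, gA k l → gA l m → gA k m → False := by decide +kernel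

theorem gA_25 : ∀ k l : Fin 10, (k = 2 ∨ k = 5 ∨ k = 0) → (l = 2 ∨ l = 5 ∨ l = 0) → ¬ gA k l := by
  decide

set_option synthInstance.maxSize 100000 in
theorem grotzsch : ∀ v1 v2 : Fin 3, v1 ≠ v2 → ∀ v3, v2 ≠ v3 → ∀ v4, v3 ≠ v4 → ∀ v5, v4 ≠ v5 →
    v5 ≠ v1 → ∀ a, a ≠ v2 → a ≠ v5 → ∀ w, ∀ v6, v6 ≠ v1 → v6 ≠ v3 → w ≠ v6 →
    ∀ v7, v7 ≠ v2 → v7 ≠ v4 → w ≠ v7 → ∀ v8, v8 ≠ v3 → v8 ≠ v5 → w ≠ v8 →
    ∀ v9, v9 ≠ v4 → v9 ≠ v1 → w ≠ v9 → w = a := by decide +kernel

def gC (c : Fin 3) (k : Fin 10) : Fin 3 := ![0, 0, 1, 0, 1, 2, 1, 2, 1, 2] k + c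

theorem gC_ok : ∀ c k l, gA k l → gC c k ≠ gC c l := by decide +kernel

theorem gC_a : ∀ c, gC c 2 ≠ c ∧ gC c 5 ≠ c ∧ gC c 0 = c := by decide

def longAdj {V J : Type} (G : SimpleGraph V) (u v : J → V) :
    V ⊕ (J × Fin 10) → V ⊕ (J × Fin 10) → Prop
  | Sum.inl x, Sum.inl y => G.Adj x y
  | Sum.inl x, Sum.inr p => (x = u p.1 ∧ (p.2 = 2 ∨ p.2 = 5)) ∨ (x = v p.1 ∧ p.2 = 0)
  | Sum.inr p, Sum.inl x => (x = u p.1 ∧ (p.2 = 2 ∨ p.2 = 5)) ∨ (x = v p.1 ∧ p.2 = 0)
  | Sum.inr p, Sum.inr q => p.1 = q.1 ∧ gA p.2 q.2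

def longG {V J : Type} (G : SimpleGraph V) (u v : J → V) : SimpleGraph (V ⊕ (J × Fin 10)) where
  Adj := longAdj G u v
  symm := ⟨by
    rintro (x | p) (y | q) h
    · exact G.adj_symm h
    · exact h
    · exact h
    · exact ⟨h.1.symm, h.2.symm⟩⟩
  loopless := ⟨by
    rintro (x | p) h
    · exact G.irrefl h
    · exact gA_irrefl _ h.2⟩

def TriFree {V : Type} (G : SimpleGraph V) : Prop :=
  ∀ a b c, G.Adj a b → G.Adj b c → G.Adj a c → False

theorem TriFree.cliqueFree {V : Type} {G : SimpleGraph V} (h : TriFree G) : G.CliqueFree 3 := by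
  classical
  intro s hs
  obtain ⟨a, b, c, h1, h2, h3, -⟩ := is3Clique_iff.1 hs
  exact h a b c h1 h3 h2

theorem longG_tri {V J : Type} (G : SimpleGraph V) (u v : J → V) (h : TriFree G) :
    TriFree (longG G u v) := by
  have one : ∀ (x y : V) (p : J × Fin 10), G.Adj x y → longAdj G u v (.inl x) (.inr p) →
      longAdj G u v (.inl y) (.inr p) → False := by
    rintro x y ⟨j, k⟩ hxy (⟨rfl, h1⟩ | ⟨rfl, h1⟩) (⟨rfl, h2⟩ | ⟨rfl, h2⟩)
    · exact G.irrefl hxy
    · simp only at h1 h2; subst h2; revert h1; decide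
    · simp only at h1 h2; subst h1; revert h2; decide
    · exact G.irrefl hxy
  have two : ∀ (x : V) (p q : J × Fin 10), longAdj G u v (.inr p) (.inr q) →
      longAdj G u v (.inl x) (.inr p) → longAdj G u v (.inl x) (.inr q) → False := by
    rintro x p q hpq h1 h2
    refine gA_25 p.2 q.2 ?_ ?_ hpq.2
    · rcases h1 with h | h <;> tauto
    · rcases h2 with h | h <;> tauto
  rintro (a | a) (b | b) (c | c) h1 h2 h3
  · exact h a b c h1 h2 h3
  · exact one a b c h1 h3 h2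
  · exact one a c b h3 h1 h2
  · exact two a b c h2 h1 h3
  · exact one b c a h2 h1 h3
  · exact two b a c h3 h1 h2
  · exact two c a b h1 h3 h2
  · exact gA_tri _ _ _ h1.2 h2.2 h3.2

/-- `col` is proper on `G` except possibly on the pair `x, y`. -/
def Prp {V : Type} (G : SimpleGraph V) (e : Option (V × V)) (col : V → Fin 3) : Prop :=
  ∀ a b, G.Adj a b → col a = col b → e = some (a, b) ∨ e = some (b, a)

theorem longG_sound {V J : Type} (G : SimpleGraph V) (u v : J → V)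
    (col : V ⊕ (J × Fin 10) → Fin 3) (h : Prp (longG G u v) none col) :
    Prp G none (fun x => col (.inl x)) ∧ ∀ j, col (.inl (u j)) ≠ col (.inl (v j)) := by
  have h' : ∀ a b, longAdj G u v a b → col a ≠ col b := by
    intro a b hab he
    simpa using h a b hab he
  refine ⟨fun a b hab he => absurd he (h' (.inl a) (.inl b) hab), fun j => ?_⟩
  have e : ∀ k l : Fin 10, gA k l → col (.inr (j, k)) ≠ col (.inr (j, l)) :=
    fun k l hkl => h' _ _ ⟨rfl, hkl⟩
  have := grotzsch _ _ (e 1 2 (by decide)) _ (e 2 3 (by decide)) _ (e 3 4 (by decide)) _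
    (e 4 5 (by decide)) (e 5 1 (by decide)) (col (.inl (u j)))
    (h' _ _ (Or.inl ⟨rfl, Or.inl rfl⟩)) (h' _ _ (Or.inl ⟨rfl, Or.inr rfl⟩)) (col (.inr (j, 0)))
    _ (e 6 1 (by decide)) (e 6 3 (by decide)) (e 0 6 (by decide))
    _ (e 7 2 (by decide)) (e 7 4 (by decide)) (e 0 7 (by decide))
    _ (e 8 3 (by decide)) (e 8 5 (by decide)) (e 0 8 (by decide))
    _ (e 9 4 (by decide)) (e 9 1 (by decide)) (e 0 9 (by decide))
  rw [← this]
  exact (h' (.inl (v j)) (.inr (j, 0)) (Or.inr ⟨rfl, rfl⟩)).symm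

theorem longG_complete {V J : Type} (G : SimpleGraph V) (u v : J → V) (x y : V)
    (col : V → Fin 3) (h : Prp G (some (x, y)) col) (hj : ∀ j, col (u j) ≠ col (v j)) :
    ∃ col', Prp (longG G u v) (some (.inl x, .inl y)) col' := by
  refine ⟨Sum.elim col fun p => gC (col (u p.1)) p.2, ?_⟩
  have mix : ∀ (a : V) (p : J × Fin 10), longAdj G u v (.inl a) (.inr p) →
      col a ≠ gC (col (u p.1)) p.2 := by
    rintro a ⟨j, k⟩ (⟨rfl, rfl | rfl⟩ | ⟨rfl, rfl⟩)
    · exact (gC_a _).1.symm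
    · exact (gC_a _).2.1.symm
    · rw [(gC_a _).2.2]; exact (hj j).symm
  rintro (a | a) (b | b) hab he
  · rcases h a b hab he with h' | h'
    · left; simp only [Option.some.injEq, Prod.mk.injEq] at h'; rw [h'.1, h'.2]
    · right; simp only [Option.some.injEq, Prod.mk.injEq] at h'; rw [h'.1, h'.2]
  · exact absurd he (mix a b hab)
  · exact absurd he.symm (mix b a hab)
  · simp only [Sum.elim_inr] at he
    rw [hab.1] at he
    exact absurd he (gC_ok _ _ _ hab.2)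

def padG {V : Type} (G : SimpleGraph V) (K : Type) : SimpleGraph (V ⊕ K) where
  Adj p q := ∃ x y, p = .inl x ∧ q = .inl y ∧ G.Adj x y
  symm := ⟨by rintro _ _ ⟨x, y, rfl, rfl, h⟩; exact ⟨y, x, rfl, rfl, h.symm⟩⟩
  loopless := ⟨by
    rintro _ ⟨x, y, rfl, h, h'⟩
    rw [Sum.inl.inj h] at h'
    exact G.irrefl h'⟩

def tU {V I J : Type} (a b c : I → V) (u : J → V) : J ⊕ (I × Fin 5) → V ⊕ (I × Bool)
  | .inl j => .inl (u j)
  | .inr (i, k) => ![.inl (a i), .inl (b i), .inl (c i), .inl (c i), .inr (i, false)] k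

def tV {V I J : Type} (v : J → V) : J ⊕ (I × Fin 5) → V ⊕ (I × Bool)
  | .inl j => .inl (v j)
  | .inr (i, k) => ![.inr (i, false), .inr (i, true), .inr (i, false), .inr (i, true),
      .inr (i, true)] k

theorem t_sound : ∀ a b c p q : Fin 3, a ≠ p → b ≠ q → c ≠ p → c ≠ q → p ≠ q → a = b → c = a := by
  decide

theorem t_complete : ∀ a b c : Fin 3, (a = b → c = a) →
    ∃ p q : Fin 3, a ≠ p ∧ b ≠ q ∧ c ≠ p ∧ c ≠ q ∧ p ≠ q := by
  decide

theorem gadget {V I J : Type} [Fintype V] [Fintype I] [Fintype J] (G : SimpleGraph V)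
    (hG : TriFree G) (a b c : I → V) (u v : J → V) :
    ∃ (W : Type) (_ : Fintype W) (H : SimpleGraph W) (ι : V → W), Function.Injective ι ∧
      TriFree H ∧ Fintype.card W = Fintype.card V + 52 * Fintype.card I + 10 * Fintype.card J ∧
      (∀ x y, G.Adj x y → H.Adj (ι x) (ι y)) ∧
      (∀ col', Prp H none col' → ∃ col, Prp G none col ∧ (∀ j, col (u j) ≠ col (v j)) ∧
        ∀ i, col (a i) = col (b i) → col (c i) = col (a i)) ∧
      (∀ x y col, Prp G (some (x, y)) col → (∀ j, col (u j) ≠ col (v j)) →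
        (∀ i, col (a i) = col (b i) → col (c i) = col (a i)) →
        ∃ col', Prp H (some (ι x, ι y)) col') := by
  refine ⟨_, inferInstance, longG (padG G (I × Bool)) (tU a b c u) (tV v), fun x => .inl (.inl x),
    ?_, ?_, ?_, ?_, ?_, ?_⟩
  · intro x y h
    simpa using h
  · refine longG_tri _ _ _ ?_
    rintro _ _ _ ⟨x, y, rfl, rfl, h1⟩ ⟨y', z, e, rfl, h2⟩ ⟨x', z', e1, e2, h3⟩
    cases e; cases e1; cases e2
    exact hG _ _ _ h1 h2 h3
  · simp only [Fintype.card_sum, Fintype.card_prod, Fintype.card_bool, Fintype.card_fin]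
    ring
  · intro x y h
    exact ⟨x, y, rfl, rfl, h⟩
  · intro col' h
    obtain ⟨h1, h2⟩ := longG_sound _ _ _ col' h
    refine ⟨fun x => col' (.inl (.inl x)), fun x y hxy he => ?_, fun j => h2 (.inl j), fun i => ?_⟩
    · simpa using h1 (.inl x) (.inl y) ⟨x, y, rfl, rfl, hxy⟩ he
    · exact t_sound _ _ _ _ _ (h2 (.inr (i, 0))) (h2 (.inr (i, 1))) (h2 (.inr (i, 2)))
        (h2 (.inr (i, 3))) (h2 (.inr (i, 4)))
  · intro x y col h hj hi
    choose p q hpq using fun i => t_complete _ _ _ (hi i)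
    refine longG_complete _ _ _ (.inl x) (.inl y)
      (Sum.elim col fun z : I × Bool => if z.2 = true then q z.1 else p z.1) ?_ ?_
    · rintro _ _ ⟨a, b, rfl, rfl, hab⟩ he
      rcases h a b hab he with h' | h'
      · left; simp only [Option.some.injEq, Prod.mk.injEq] at h'; rw [h'.1, h'.2]
      · right; simp only [Option.some.injEq, Prod.mk.injEq] at h'; rw [h'.1, h'.2]
    · rintro (j | ⟨i, k⟩)
      · exact hj j
      · obtain ⟨h1, h2, h3, h4, h5⟩ := hpq i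
        fin_cases k
        · exact h1
        · exact h2
        · exact h3
        · exact h4
        · exact h5

end Pool.Agent.Lib.MP_7a5332_co
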