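import Pool.Agent.Lib.MP_7a5332_co.Constr

set_option autoImplicit false

namespace Pool.Agent.Lib.MP_7a5332_co

theorem card_V (r : ℕ) : Fintype.card (V r) ≤ 63 * r ^ 3 + Fintype.card (F (3 * r)) := by
  have hx : Fintype.card {s : S r // s.1.1 < 2 * r} ≤
      Fintype.card (Fin (2 * r) × Fin (3 * r) × Fin (3 * r)) := by
    refine Fintype.card_le_of_injective (fun s => (⟨s.1.1.1, s.2⟩, s.1.2)) ?_
    rintro ⟨⟨i, p⟩, h⟩ ⟨⟨j, q⟩, h'⟩ e
    simp only [Prod.mk.injEq, Fin.mk.injEq] at e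
    simp only [Subtype.mk.injEq, Prod.mk.injEq, Fin.ext_iff]
    exact e
  have hy : Fintype.card {s : S r // r ≤ s.1.1} ≤
      Fintype.card (Fin (2 * r) × Fin (3 * r) × Fin (3 * r)) := by
    refine Fintype.card_le_of_injective
      (fun s => (⟨s.1.1.1 - r, by have := s.1.1.2; omega⟩, s.1.2)) ?_
    rintro ⟨⟨i, p⟩, h⟩ ⟨⟨j, q⟩, h'⟩ e
    simp only [Prod.mk.injEq, Fin.mk.injEq] at e h h'
    simp only [Subtype.mk.injEq, Prod.mk.injEq, Fin.ext_iff]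
    exact ⟨by omega, e.2⟩
  rw [← Fintype.card_congr (proxy_equiv% (V r))]
  simp only [Fintype.card_sum, Fintype.card_prod, Fintype.card_fin] at hx hy ⊢
  nlinarith

abbrev K (r : ℕ) := (Σ j : Fin (2 * r), Fin (min (r + j.1) (2 * r))) ×
  (Fin (3 * r) × Fin (3 * r)) × (Fin (3 * r) × Fin (3 * r))

theorem card_K (r : ℕ) : 2 * Fintype.card (K r) + 81 * r ^ 5 = 567 * r ^ 6 := by
  have h : 2 * (∑ j ∈ Finset.range (2 * r), min (r + j) (2 * r)) + r = 7 * r ^ 2 := by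
    rw [two_mul r, Finset.sum_range_add]
    have h1 : ∑ j ∈ Finset.range r, min (r + j) (r + r) = ∑ j ∈ Finset.range r, (r + j) :=
      Finset.sum_congr rfl fun j hj => by
        have := Finset.mem_range.1 hj
        omega
    have h2 : ∑ j ∈ Finset.range r, min (r + (r + j)) (r + r) = ∑ j ∈ Finset.range r, (r + r) :=
      Finset.sum_congr rfl fun j _ => by omega
    rw [h1, h2, Finset.sum_add_distrib]
    have h3 := Finset.sum_range_id_mul_two r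
    simp only [Finset.sum_const, Finset.card_range, smul_eq_mul]
    rcases Nat.eq_zero_or_pos r with rfl | hr
    · simp
    · obtain ⟨t, rfl⟩ : ∃ t, r = t + 1 := ⟨r - 1, by omega⟩
      simp only [Nat.add_sub_cancel] at h3
      nlinarith
  simp only [Fintype.card_prod, Fintype.card_sigma, Fintype.card_fin]
  rw [Fin.sum_univ_eq_sum_range (fun j => min (r + j) (2 * r))]
  calc _ = 81 * r ^ 4 * (2 * (∑ j ∈ Finset.range (2 * r), min (r + j) (2 * r)) + r) := by ring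
    _ = _ := by rw [h]; ring

def Ki {r : ℕ} (k : K r) : Fin (3 * r) := ⟨k.1.2.1, by have := k.1.2.2; omega⟩

def Kj {r : ℕ} (k : K r) : Fin (3 * r) := ⟨r + k.1.1.1, by have := k.1.1.2; omega⟩

theorem Ki_lt {r : ℕ} (k : K r) : (Ki k).1 < 2 * r := by
  have := k.1.2.2
  simp only [Ki]
  omega

theorem Kj_ge {r : ℕ} (k : K r) : r ≤ (Kj k).1 := by simp [Kj]

theorem Kij {r : ℕ} (k : K r) : Ki k < Kj k := by
  have := k.1.2.2
  simp only [Ki, Kj, Fin.lt_def]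
  omega

theorem exists_graph (r : ℕ) (hr : 1 ≤ r) :
    ∃ n ≤ 63 * r ^ 3 + 3506 * r ^ 2, ∃ G : SimpleGraph (Fin n), G.CliqueFree 3 ∧
      G.chromaticNumber = 4 ∧ (∀ v : Fin n, ∃ w : Fin n, G.Adj v w) ∧
      (∀ e ∈ G.edgeSet, (G.deleteEdges {e}).Colorable 3) ∧
      567 * r ^ 6 ≤ 2 * G.edgeSet.ncard + 81 * r ^ 5 := by
  obtain ⟨W, _, H, ι, hι, htri, hcard, -, hs, hc⟩ := gadget (G0 r) (G0_tri r)
    (fun i => .f (Iabc r i).1) (fun i => .f (Iabc r i).2.1) (fun i => .f (Iabc r i).2.2)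
    (fun j => .f (Juv (3 * r) j).1) (fun j => .f (Juv (3 * r) j).2)
  obtain ⟨n, hn, G, h1, h2, h3, h4, h5⟩ := crit_sub (K := K r) H htri
    (fun col' h => by
      obtain ⟨col, a1, a2, a3⟩ := hs col' h
      exact sound r col a1 a2 a3)
    (fun k => ι (.x ⟨(Ki k, k.2.1), Ki_lt k⟩)) (fun k => ι (.y ⟨(Kj k, k.2.2), Kj_ge k⟩))
    (by
      rintro ⟨⟨j, i⟩, p, q⟩ ⟨⟨j', i'⟩, p', q'⟩ e
      simp only [Sym2.eq_iff, hι.eq_iff, V.x.injEq, V.y.injEq, Subtype.mk.injEq, Prod.mk.injEq,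
        reduceCtorEq, and_self, or_false, Ki, Kj, Fin.mk.injEq] at e
      obtain ⟨⟨e1, rfl⟩, e2, rfl⟩ := e
      have e3 : j = j' := Fin.ext (by omega)
      subst e3
      rw [Fin.ext e1])
    (fun k => hc _ _ (cV (Ki k) k.2.1.1 k.2.1.2 (Kj k) k.2.2.1 k.2.2.2)
      (complete_G _ _ _ _ _ _ (Kij k) (Ki_lt k) (Kj_ge k)) (complete_J _ _ _ _ _ _)
      (complete_I _ _ _ _ _ _ (Kij k) (Ki_lt k) (Kj_ge k)))
  refine ⟨n, ?_, G, h1, h2, h3, h4, ?_⟩
  · have := card_V r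
    rw [card_F] at this
    rw [card_I, card_J] at hcard
    nlinarith
  · have := card_K r
    omega

theorem lower (ε : ℝ) (hε : 0 < ε) (N : ℕ) :
    ∃ n : ℕ, N ≤ n ∧ ∃ G : SimpleGraph (Fin n), G.CliqueFree 3 ∧ G.chromaticNumber = 4 ∧
      (∀ v : Fin n, ∃ w : Fin n, G.Adj v w) ∧
      (∀ e ∈ G.edgeSet, (G.deleteEdges {e}).Colorable 3) ∧
      (1 / 14 - ε) * (n : ℝ) ^ 2 ≤ (G.edgeSet.ncard : ℝ) := by
  obtain ⟨r0, hr0⟩ := exists_nat_ge (230 / ε)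
  obtain ⟨r, hr1, hrN, hrε⟩ : ∃ r : ℕ, 1 ≤ r ∧ N ≤ r ∧ 230 / ε ≤ r :=
    ⟨r0 + N + 1, by omega, by omega, hr0.trans (by push_cast; linarith [Nat.cast_nonneg (α := ℝ) N])⟩
  obtain ⟨n, hn, G, h1, h2, h3, h4, h5⟩ := exists_graph r hr1
  refine ⟨n, ?_, G, h1, h2, h3, h4, ?_⟩
  · have e1 : G.edgeSet.ncard ≤ n * n := by
      refine (Set.ncard_le_card _).trans ?_
      have := Nat.card_le_card_of_surjective (fun p : Fin n × Fin n => s(p.1, p.2))
        (fun e => by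
          induction e using Sym2.ind with
          | _ a b => exact ⟨(a, b), rfl⟩)
      simpa using this
    by_contra hh
    have e2 : n * n ≤ r * r := Nat.mul_le_mul (by omega) (by omega)
    have e3 : r ^ 5 ≤ r ^ 6 := Nat.pow_le_pow_right hr1 (by norm_num)
    have e4 : r ^ 2 ≤ r ^ 6 := Nat.pow_le_pow_right hr1 (by norm_num)
    have e5 : 0 < r ^ 6 := by positivity
    nlinarith
  · have hr : (1 : ℝ) ≤ r := by exact_mod_cast hr1
    have hn' : (n : ℝ) ≤ 63 * r ^ 3 + 3506 * r ^ 2 := by exact_mod_cast hn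
    have h5' : (567 : ℝ) * r ^ 6 ≤ 2 * G.edgeSet.ncard + 81 * r ^ 5 := by exact_mod_cast h5
    have hre : 230 ≤ r * ε := by rwa [div_le_iff₀ hε] at hrε
    rcases le_total (1 / 14 - ε) 0 with h | h
    · exact (mul_nonpos_of_nonpos_of_nonneg h (by positivity)).trans (by positivity)
    have a1 : (1 / 14 - ε) * (n : ℝ) ^ 2 ≤ (1 / 14 - ε) * (63 * r ^ 3 + 3506 * r ^ 2) ^ 2 := by
      gcongr
    have p4 : (0 : ℝ) ≤ (r : ℝ) ^ 4 := by positivity
    have p5 : (r : ℝ) ^ 4 ≤ (r : ℝ) ^ 5 := pow_le_pow_right₀ hr (by norm_num)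
    have a2 : 230 * (r : ℝ) ^ 5 ≤ ε * (r : ℝ) ^ 6 := by
      have : 230 * (r : ℝ) ^ 5 ≤ (r * ε) * (r : ℝ) ^ 5 := by gcongr
      linarith [show (r * ε) * (r : ℝ) ^ 5 = ε * (r : ℝ) ^ 6 by ring]
    have a3 : 0 ≤ ε * (r : ℝ) ^ 5 := by positivity
    have a4 : 0 ≤ ε * (r : ℝ) ^ 4 := by positivity
    nlinarith

end Pool.Agent.Lib.MP_7a5332_co
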