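import Pool.Agent.Lib.MP_7a5332_co.UpBase

set_option autoImplicit false

namespace Pool.Agent.Lib.MP_7a5332_co.Up

open Finset Sum3 SimpleGraph.TripartiteFromTriangles

open Classical in
/-- Number of common neighbours. -/
noncomputable def codeg {V : Type} [Fintype V] (G : SimpleGraph V) (x y : V) : ℕ :=
  (univ.filter (fun z => G.Adj x z ∧ G.Adj y z)).card

lemma clean (K : ℕ) {δ : ℝ} (hδ : 0 < δ) : ∃ N : ℕ, ∀ (V : Type) [Fintype V] [DecidableEq V],
    N ≤ Fintype.card V → ∀ G : SimpleGraph V, ∃ Bad : Finset (V × V),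
      (Bad.card : ℝ) ≤ δ * (Fintype.card V : ℝ) ^ 2 ∧
      ∀ u w w', G.Adj u w → G.Adj u w' → w ≠ w' → (u, w) ∉ Bad → (u, w') ∉ Bad →
        K < codeg G w w' := by
  classical
  set η : ℝ := δ / (9 * (K + 2)) with hη
  have hη0 : 0 < η := by positivity
  have hβ := SimpleGraph.triangleRemovalBound_pos hη0
  set β := SimpleGraph.triangleRemovalBound η with hβd
  obtain ⟨N, hN⟩ := exists_nat_gt ((K : ℝ) / β)
  refine ⟨N + 1, fun V _ _ hV G => ?_⟩
  set n := Fintype.card V with hn
  have hnpos : (0 : ℝ) < n := by exact_mod_cast (by omega : 0 < n)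
  have hKn : (K : ℝ) < β * n := by
    have : (N : ℝ) ≤ n := by exact_mod_cast (by omega : N ≤ n)
    rw [div_lt_iff₀ hβ] at hN
    nlinarith
  set t : Finset (V × V × V) := univ.filter (fun x => G.Adj x.1 x.2.1 ∧ G.Adj x.1 x.2.2 ∧
    x.2.1 ≠ x.2.2 ∧ codeg G x.2.1 x.2.2 ≤ K) with ht
  have htc : t.card ≤ K * (n * n) := by
    have h1 : (univ : Finset (V × V)).card = n * n := by simp [hn]
    rw [← h1]
    refine card_le_mul_card_image_of_maps_to (f := fun x => x.2) (fun _ _ => mem_univ _) K ?_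
    intro p _
    by_cases hp : codeg G p.1 p.2 ≤ K
    · refine le_trans ?_ hp
      unfold codeg
      refine card_le_card_of_injOn (fun x => x.1) ?_ ?_
      · intro x hx
        simp only [ht, coe_filter, mem_filter, mem_univ, true_and, Set.mem_setOf_eq] at hx ⊢
        obtain ⟨⟨h1, h2, _, _⟩, rfl⟩ := hx
        exact ⟨h1.symm, h2.symm⟩
      · intro x hx y hy hxy
        simp only [coe_filter, Set.mem_setOf_eq] at hx hy
        exact Prod.ext hxy (hx.2.trans hy.2.symm)
    · rw [card_eq_zero.2]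
      · exact Nat.zero_le _
      · rw [eq_empty_iff_forall_notMem]
        intro x hx
        simp only [ht, mem_filter, mem_univ, true_and] at hx
        obtain ⟨⟨_, _, _, h4⟩, rfl⟩ := hx
        exact hp h4
  have hcl : ((graph t).cliqueFinset 3) ⊆ t.map toTriangle := by
    intro s hs
    rw [SimpleGraph.mem_cliqueFinset_iff, SimpleGraph.is3Clique_iff] at hs
    obtain ⟨x, y, z, hxy, hxz, hyz, rfl⟩ := hs
    obtain ⟨a, b, c, habc, hab, hac, hbc⟩ := graph_triple hxy hxz hyz
    obtain ⟨c', hc'⟩ := Graph.in₀₁_iff.1 hab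
    obtain ⟨b', hb'⟩ := Graph.in₀₂_iff.1 hac
    obtain ⟨a', ha'⟩ := Graph.in₁₂_iff.1 hbc
    simp only [ht, mem_filter, mem_univ, true_and] at hc' hb' ha'
    rw [mem_map]
    refine ⟨(a, b, c), ?_, habc⟩
    simp only [ht, mem_filter, mem_univ, true_and]
    exact ⟨hc'.1, hb'.2.1, ha'.2.2.1, ha'.2.2.2⟩
  have hcard : Fintype.card (V ⊕ V ⊕ V) = 3 * n := by simp [hn]; ring
  have hlt : (((graph t).cliqueFinset 3).card : ℝ) <
      SimpleGraph.triangleRemovalBound η * (Fintype.card (V ⊕ V ⊕ V) : ℝ) ^ 3 := by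
    have h1 := card_le_card hcl
    rw [card_map] at h1
    have h2 : (((graph t).cliqueFinset 3).card : ℝ) ≤ K * (n * n) := by
      exact_mod_cast h1.trans htc
    rw [hcard, ← hβd]
    push_cast
    have h3 : (0 : ℝ) < n * n := by positivity
    have h4 : (K : ℝ) * (n * n) < β * n * (n * n) := mul_lt_mul_of_pos_right hKn h3
    have h5 : 0 < β * n * (n * n) := by positivity
    nlinarith
  obtain ⟨G', hle, inst, hF, hfree⟩ := SimpleGraph.triangle_removal hlt
  set F := (graph t).edgeFinset \ G'.edgeFinset with hFd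
  have hFc : (F.card : ℝ) ≤ η * (9 * (n : ℝ) ^ 2) := by
    have hsub : G'.edgeFinset ⊆ (graph t).edgeFinset := SimpleGraph.edgeFinset_mono hle
    rw [hFd, card_sdiff_of_subset hsub, Nat.cast_sub (card_le_card hsub)]
    rw [hcard] at hF
    push_cast at hF
    nlinarith
  set F1 : Finset (V × V) := univ.filter (fun p => s(in₀ p.1, in₁ p.2) ∈ F) with hF1
  set F2 : Finset (V × V) := univ.filter (fun p => s(in₀ p.1, in₂ p.2) ∈ F) with hF2
  set F3 : Finset (V × V) := univ.filter (fun p => s(in₁ p.1, in₂ p.2) ∈ F ∧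
    codeg G p.1 p.2 ≤ K) with hF3
  have c1 : F1.card ≤ F.card := by
    refine card_le_card_of_injOn (fun p => s(in₀ p.1, in₁ p.2)) ?_ ?_
    · intro p hp; simpa [hF1] using hp
    · intro p _ q _ h
      simp [in₀, in₁] at h
      exact Prod.ext h.1 h.2
  have c2 : F2.card ≤ F.card := by
    refine card_le_card_of_injOn (fun p => s(in₀ p.1, in₂ p.2)) ?_ ?_
    · intro p hp; simpa [hF2] using hp
    · intro p _ q _ h
      simp [in₀, in₂] at h
      exact Prod.ext h.1 h.2
  have c3 : F3.card ≤ F.card := by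
    refine card_le_card_of_injOn (fun p => s(in₁ p.1, in₂ p.2)) ?_ ?_
    · intro p hp
      simp only [hF3, coe_filter, mem_univ, true_and, Set.mem_setOf_eq] at hp
      exact hp.1
    · intro p _ q _ h
      simp [in₁, in₂] at h
      exact Prod.ext h.1 h.2
  set B3 : Finset (V × V) := F3.biUnion (fun p =>
    (univ.filter (fun z => G.Adj p.1 z ∧ G.Adj p.2 z)).image (fun u => (u, p.1))) with hB3
  have c4 : B3.card ≤ F3.card * K := by
    refine card_biUnion_le_card_mul _ _ _ (fun p hp => card_image_le.trans ?_)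
    simp only [hF3, mem_filter] at hp
    exact hp.2.2
  refine ⟨F1 ∪ F2 ∪ B3, ?_, ?_⟩
  · have h1 : (F1 ∪ F2 ∪ B3).card ≤ (K + 2) * F.card := by
      have := card_union_le (F1 ∪ F2) B3
      have := card_union_le F1 F2
      have : F3.card * K ≤ F.card * K := Nat.mul_le_mul_right _ c3
      nlinarith
    have h2 : ((F1 ∪ F2 ∪ B3).card : ℝ) ≤ (K + 2) * F.card := by exact_mod_cast h1
    refine h2.trans ?_
    have h3 : ((K : ℝ) + 2) * (η * (9 * (n : ℝ) ^ 2)) = δ * (n : ℝ) ^ 2 := by
      rw [hη]; field_simp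
    rw [← h3]
    exact mul_le_mul_of_nonneg_left hFc (by positivity)
  · intro u w w' huw huw' hne h1 h2
    by_contra hK
    push Not at hK
    have hmem : (u, w, w') ∈ t := by
      simp only [ht, mem_filter, mem_univ, true_and]
      exact ⟨huw, huw', hne, hK⟩
    simp only [mem_union, not_or] at h1 h2
    have key : ∀ x y, (graph t).Adj x y → s(x, y) ∉ F → G'.Adj x y := by
      intro x y hxy hF'
      by_contra hn'
      apply hF'
      simp only [hFd, mem_sdiff, SimpleGraph.mem_edgeFinset, SimpleGraph.mem_edgeSet]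
      exact ⟨hxy, hn'⟩
    have e1 : G'.Adj (in₀ u) (in₁ w) := key _ _ (Graph.in₀₁_iff.2 ⟨_, hmem⟩) (by
      intro h; apply h1.1.1; simp only [hF1, mem_filter, mem_univ, true_and]; exact h)
    have e2 : G'.Adj (in₀ u) (in₂ w') := key _ _ (Graph.in₀₂_iff.2 ⟨_, hmem⟩) (by
      intro h; apply h2.1.2; simp only [hF2, mem_filter, mem_univ, true_and]; exact h)
    have e3 : G'.Adj (in₁ w) (in₂ w') := key _ _ (Graph.in₁₂_iff.2 ⟨_, hmem⟩) (by
      intro h; apply h1.2
      simp only [hB3, mem_biUnion, mem_image, mem_filter, mem_univ, true_and, hF3]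
      exact ⟨(w, w'), ⟨h, hK⟩, u, ⟨huw.symm, huw'.symm⟩, rfl⟩)
    exact hfree _ (SimpleGraph.is3Clique_triple_iff.2 ⟨e1, e2, e3⟩)

end Pool.Agent.Lib.MP_7a5332_co.Up
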