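import Pool.Agent.Lib.MP_7a5332_co.UpBase

set_option autoImplicit false

namespace Pool.Agent.Lib.MP_7a5332_co.Up

open Finset

variable {V : Type} [Fintype V] [DecidableEq V]

open Classical in
/-- Number of ordered pairs in `S × T` that are edges. -/
noncomputable def E (H : SimpleGraph V) (S T : Finset V) : ℕ :=
  ∑ v ∈ S, (T.filter (fun x => H.Adj v x)).card

omit [Fintype V] [DecidableEq V] in
lemma E_comm (H : SimpleGraph V) (S T : Finset V) : E H S T = E H T S := by
  classical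
  unfold E
  simp only [card_filter]
  rw [sum_comm]
  refine sum_congr rfl (fun x _ => sum_congr rfl (fun y _ => ?_))
  simp only [H.adj_comm]

omit [Fintype V] in
lemma E_union (H : SimpleGraph V) {S S' : Finset V} (h : Disjoint S S') (T : Finset V) :
    E H (S ∪ S') T = E H S T + E H S' T := by
  unfold E; rw [sum_union h]

omit [Fintype V] [DecidableEq V] in
lemma E_zero (H : SimpleGraph V) {S : Finset V} (h : ∀ x ∈ S, ∀ y ∈ S, ¬ H.Adj x y) :
    E H S S = 0 := by
  classical
  unfold E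
  refine sum_eq_zero (fun x hx => ?_)
  rw [card_eq_zero, filter_eq_empty_iff]
  exact fun y hy => h x hx y hy

open Classical in
/-- Neighbourhood as a finset. -/
noncomputable def Nb (H : SimpleGraph V) (v : V) : Finset V := univ.filter (fun x => H.Adj v x)

omit [DecidableEq V] in
lemma mem_Nb {H : SimpleGraph V} {v x : V} : x ∈ Nb H v ↔ H.Adj v x := by simp [Nb]

omit [DecidableEq V] in
lemma E_univ (H : SimpleGraph V) (S : Finset V) : E H S univ = ∑ v ∈ S, (Nb H v).card := rfl

omit [Fintype V] in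
/-- Edges inside a set of a triangle-free graph. -/
lemma E_self_le (H : SimpleGraph V) (htri : ∀ u w y, H.Adj u w → H.Adj u y → ¬ H.Adj w y)
    (R : Finset V) : ∃ α : ℕ, α ≤ R.card ∧ E H R R ≤ 2 * (α * (R.card - α)) ∧
      ∀ I ⊆ R, (∀ x ∈ I, ∀ y ∈ I, ¬ H.Adj x y) → I.card ≤ α := by
  classical
  obtain ⟨I, hI, hmax⟩ := exists_max_image
    (R.powerset.filter (fun I => ∀ x ∈ I, ∀ y ∈ I, ¬ H.Adj x y)) card ⟨∅, by simp⟩
  simp only [mem_filter, mem_powerset] at hI hmax
  have hm : ∀ J ⊆ R, (∀ x ∈ J, ∀ y ∈ J, ¬ H.Adj x y) → J.card ≤ I.card :=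
    fun J h1 h2 => hmax J ⟨h1, h2⟩
  refine ⟨I.card, card_le_card hI.1, ?_, hm⟩
  have hd : Disjoint I (R \ I) := disjoint_sdiff
  have hu : I ∪ (R \ I) = R := union_sdiff_of_subset hI.1
  have hb : ∀ T ⊆ R, E H (R \ I) T ≤ I.card * (R.card - I.card) := by
    intro T hT
    unfold E
    rw [← card_sdiff_of_subset hI.1, mul_comm, ← smul_eq_mul]
    refine sum_le_card_nsmul _ _ _ (fun v _ => hm _ ((filter_subset _ _).trans hT) ?_)
    intro x hx y hy
    exact htri v x y (mem_filter.1 hx).2 (mem_filter.1 hy).2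
  have e1 : E H R R = E H I R + E H (R \ I) R := by
    conv_lhs => rw [show E H R R = E H (I ∪ (R \ I)) R by rw [hu]]
    exact E_union H hd R
  have e2 : E H I R = E H I I + E H (R \ I) I := by
    rw [E_comm, show E H R I = E H (I ∪ (R \ I)) I by rw [hu]]
    exact E_union H hd I
  have e3 := E_zero H hI.2
  have := hb I hI.1
  have := hb R subset_rfl
  omega

/-- The cleaned subgraph. -/
structure Clean (G H : SimpleGraph V) (K : ℕ) : Prop where
  le : ∀ u w, H.Adj u w → G.Adj u w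
  tri : ∀ u w y, H.Adj u w → G.Adj u y → ¬ G.Adj w y
  mono : ∀ u w χ, H.Adj u w → Col G u w χ → ∃ c, c ≠ χ w ∧
    ((Nb G w).filter (fun y => χ y = c)).card < K ∧ ∀ y, H.Adj u y → y ≠ w → χ y = c

lemma private_nbr {G H : SimpleGraph V} {K : ℕ} (hG : Crit G) (hH : Clean G H K) {w z : V}
    (h : H.Adj w z) : ∃ p, G.Adj z p ∧ ∀ y, H.Adj w y → y ≠ z → ¬ G.Adj y p := by
  obtain ⟨χ, hχ⟩ := hG.2 w z (hH.le _ _ h)
  obtain ⟨c, hc, -, hm⟩ := hH.mono w z χ h hχ
  obtain ⟨p, hp, hpc⟩ := exists_nbr hG.1 hχ hc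
  refine ⟨p, hp, fun y hy hyz hyp => ?_⟩
  rcases hχ.2 y p hyp ((hm y hy hyz).trans hpc.symm) with ⟨h1, _⟩ | ⟨h1, _⟩
  · exact hy.ne h1.symm
  · exact hyz h1

lemma side {G H : SimpleGraph V} {K : ℕ} (hG : Crit G) (hH : Clean G H K) {u w : V}
    (h : H.Adj u w) {χ : V → Fin 3} (hχ : Col G u w χ) {c : Fin 3}
    (hc : ∀ y, H.Adj w y → y ≠ u → χ y = c) (R : Finset V)
    (hR : ∀ v, v ∈ R ↔ ¬ H.Adj u v ∧ ¬ H.Adj w v) :
    (E H (Nb H w) R : ℝ) ≤ (Nb H w).card *
      ((R.card : ℝ) - (R.filter (fun v => χ v = c)).card - (Nb H w).card + 2) := by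
  classical
  have hex : ∀ z, ∃ p, H.Adj w z → G.Adj z p ∧ ∀ y, H.Adj w y → y ≠ z → ¬ G.Adj y p := by
    intro z
    by_cases hz : H.Adj w z
    · obtain ⟨p, hp⟩ := private_nbr hG hH hz
      exact ⟨p, fun _ => hp⟩
    · exact ⟨z, fun h => absurd h hz⟩
  choose φ hφ using hex
  set B := Nb H w with hB
  have huB : u ∈ B := mem_Nb.2 h.symm
  set P := (B.erase u).image φ with hP
  set Q := R.filter (fun v => ¬ χ v = c) with hQ
  have hPc : P.card = B.card - 1 := by
    rw [hP, card_image_of_injOn, card_erase_of_mem huB]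
    intro z hz z' hz' e
    simp only [coe_erase, Set.mem_sdiff, mem_coe, hB, mem_Nb] at hz hz'
    by_contra hne
    exact (hφ z hz.1).2 z' hz'.1 (fun e => hne e.symm) (e ▸ (hφ z' hz'.1).1)
  have hPQ : P ⊆ Q := by
    intro p hp
    obtain ⟨z, hz, rfl⟩ := mem_image.1 hp
    rw [mem_erase, hB, mem_Nb] at hz
    have h1 := hφ z hz.2
    rw [hQ, mem_filter, hR]
    refine ⟨⟨fun h2 => h1.2 u h.symm hz.1.symm (hH.le _ _ h2),
      fun h2 => hH.tri w z (φ z) hz.2 (hH.le _ _ h2) h1.1⟩, fun h2 => ?_⟩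
    rcases hχ.2 z (φ z) h1.1 ((hc z hz.2 hz.1).trans h2.symm) with ⟨h3, _⟩ | ⟨h3, _⟩
    · exact hz.1 h3
    · exact hz.2.ne h3.symm
  have hQc : Q.card + (R.filter (fun v => χ v = c)).card = R.card := by
    rw [add_comm]; exact card_filter_add_card_filter_not _
  have hle : P.card ≤ Q.card := card_le_card hPQ
  have hBpos : 0 < B.card := card_pos.2 ⟨u, huB⟩
  have hb : ∀ z ∈ B, (R.filter (fun x => H.Adj z x)).card ≤ Q.card - P.card + 1 := by
    intro z hz
    by_cases hzu : z = u
    · subst hzu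
      rw [card_eq_zero.2]
      · exact Nat.zero_le _
      · rw [filter_eq_empty_iff]
        exact fun x hx => ((hR x).1 hx).1
    · rw [hB, mem_Nb] at hz
      have hsub : R.filter (fun x => H.Adj z x) ⊆ insert (φ z) (Q \ P) := by
        intro x hx
        rw [mem_filter] at hx
        rw [mem_insert, mem_sdiff]
        by_cases hxP : x ∈ P
        · left
          obtain ⟨z', hz', rfl⟩ := mem_image.1 hxP
          rw [mem_erase, hB, mem_Nb] at hz'
          by_contra hne
          exact (hφ z' hz'.2).2 z hz (fun e => hne (by rw [e])) (hH.le _ _ hx.2)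
        · right
          refine ⟨mem_filter.2 ⟨hx.1, fun h2 => ?_⟩, hxP⟩
          rcases hχ.2 z x (hH.le _ _ hx.2) ((hc z hz hzu).trans h2.symm) with ⟨h3, _⟩ | ⟨h3, _⟩
          · exact hzu h3
          · exact hz.ne h3.symm
      refine (card_le_card hsub).trans ((card_insert_le _ _).trans ?_)
      rw [card_sdiff_of_subset hPQ]
  have hE : E H B R ≤ B.card * (Q.card - P.card + 1) := by
    unfold E
    rw [← smul_eq_mul]
    exact sum_le_card_nsmul _ _ _ hb
  have hcast : ((Q.card - P.card + 1 : ℕ) : ℝ) =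
      (R.card : ℝ) - (R.filter (fun v => χ v = c)).card - B.card + 2 := by
    rw [← hQc, Nat.cast_add, Nat.cast_sub hle, hPc, Nat.cast_sub hBpos]
    push_cast
    ring
  rw [← hcast]
  exact_mod_cast hE

lemma arith {n a b α x y S : ℝ} (ha : 0 < a) (hb : 0 < b) (hα : 0 ≤ α) (hr : a + b ≤ n)
    (h0 : S ≤ n * (a + b) / 2)
    (h1 : S ≤ 2 * (a * b) + 2 * (b * y) + 2 * (α * (n - (a + b) - α)))
    (h2 : S ≤ 2 * (a * b) + 2 * (a * x) + 2 * (α * (n - (a + b) - α)))
    (hxy : x + y ≤ n - (a + b) + α - (a + b) + 4) :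
    S ≤ 2 * n ^ 2 / 7 + 2 * n := by
  set s := a + b with hs
  have hs0 : 0 < s := by positivity
  have hab : a * b ≤ s ^ 2 / 4 := by nlinarith [sq_nonneg (a - b)]
  have hab0 : 0 < a * b := by positivity
  have h3 : s * S ≤ 2 * (a * b) * (s + x + y) + 2 * s * (α * (n - s - α)) := by
    have e1 := mul_le_mul_of_nonneg_left h1 ha.le
    have e2 := mul_le_mul_of_nonneg_left h2 hb.le
    have : s * S = a * S + b * S := by rw [hs]; ring
    rw [this]
    have : 2 * (a * b) * (s + x + y) + 2 * s * (α * (n - s - α)) =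
        a * (2 * (a * b) + 2 * (b * y) + 2 * (α * (n - s - α))) +
        b * (2 * (a * b) + 2 * (a * x) + 2 * (α * (n - s - α))) := by rw [hs]; ring
    rw [this]
    linarith
  have h4 : 2 * (a * b) * (s + x + y) ≤ 2 * (s ^ 2 / 4) * (n - s + α + 4) := by
    have e1 : 2 * (a * b) * (s + x + y) ≤ 2 * (a * b) * (n - s + α + 4) :=
      mul_le_mul_of_nonneg_left (by linarith) (by positivity)
    have e2 : 2 * (a * b) * (n - s + α + 4) ≤ 2 * (s ^ 2 / 4) * (n - s + α + 4) :=
      mul_le_mul_of_nonneg_right (by linarith) (by linarith)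
    linarith
  have h5 : S ≤ s / 2 * (n - s + α + 4) + 2 * (α * (n - s - α)) := by
    refine le_of_mul_le_mul_left ?_ hs0
    have : s * (s / 2 * (n - s + α + 4) + 2 * (α * (n - s - α))) =
        2 * (s ^ 2 / 4) * (n - s + α + 4) + 2 * s * (α * (n - s - α)) := by ring
    rw [this]
    linarith
  have h6 : S ≤ 2 * s + (16 * n ^ 2 - 8 * s * n - 7 * s ^ 2) / 32 := by
    nlinarith [sq_nonneg (α - ((n - s) / 2 + s / 8))]
  have hn : 0 < n := by linarith
  by_cases hc : s ≤ 4 * n / 7
  · nlinarith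
  · push Not at hc
    nlinarith

omit [DecidableEq V] in
lemma cs_bound (H : SimpleGraph V) (s : ℕ)
    (hs : ∀ x y, H.Adj x y → (Nb H x).card + (Nb H y).card ≤ s) :
    (E H univ univ : ℝ) ≤ (Fintype.card V : ℝ) * s / 2 := by
  classical
  set d : V → ℕ := fun v => (Nb H v).card with hd
  have h1 : ∑ x, ∑ y ∈ Nb H x, d y = ∑ y, d y * d y := by
    have : ∀ x, ∑ y ∈ Nb H x, d y = ∑ y, if H.Adj x y then d y else 0 := by
      intro x; unfold Nb; rw [sum_filter]
    simp only [this]
    rw [sum_comm]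
    refine sum_congr rfl (fun y _ => ?_)
    rw [← sum_filter, sum_const, smul_eq_mul]
    congr 2
    ext x; simp [mem_Nb, H.adj_comm]
  have h2 : ∑ x, ∑ y ∈ Nb H x, (d x + d y) ≤ ∑ x, d x * s := by
    refine sum_le_sum (fun x _ => ?_)
    rw [← smul_eq_mul]
    exact sum_le_card_nsmul _ _ _ (fun y hy => hs x y (mem_Nb.1 hy))
  simp only [sum_add_distrib, sum_const, smul_eq_mul, h1, ← sum_mul] at h2
  have h3 : 2 * ∑ y, (d y : ℝ) ^ 2 ≤ (∑ y, (d y : ℝ)) * s := by
    have : 2 * ∑ y, d y ^ 2 ≤ (∑ y, d y) * s := by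
      simp only [sq]; change _ + ∑ y, d y * d y ≤ _ at h2
      have e : ∑ x, (Nb H x).card * d x = ∑ y, d y * d y := rfl
      omega
    exact_mod_cast this
  have h4 := sq_sum_le_card_mul_sum_sq (s := (univ : Finset V)) (f := fun y => (d y : ℝ))
  rw [card_univ] at h4
  have h5 : (E H univ univ : ℝ) = ∑ y, (d y : ℝ) := by rw [E_univ]; push_cast; rfl
  rw [h5]
  set S := ∑ y, (d y : ℝ) with hS
  have hS0 : 0 ≤ S := sum_nonneg (fun _ _ => by positivity)
  have hn : (0 : ℝ) ≤ Fintype.card V := by positivity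
  rcases hS0.eq_or_lt with h | h
  · rw [← h]; positivity
  · refine le_of_mul_le_mul_left ?_ h
    nlinarith

lemma fin3_cases (i j k l : Fin 3) (h1 : i ≠ k) (h2 : j ≠ k) (h3 : i ≠ j) :
    l = k ∨ l = i ∨ l = j := by
  fin_cases i <;> fin_cases j <;> fin_cases l <;> fin_cases k <;> simp_all

lemma core {G H : SimpleGraph V} {K : ℕ} (hG : Crit G) (hH : Clean G H K) :
    (E H univ univ : ℝ) ≤ 2 * (Fintype.card V : ℝ) ^ 2 / 7 + 2 * Fintype.card V +
      K * Fintype.card V := by
  classical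
  by_cases hne : (univ.filter (fun p : V × V => H.Adj p.1 p.2)).Nonempty
  swap
  · have : E H univ univ = 0 := by
      refine E_zero H (fun x _ y _ hxy => hne ⟨(x, y), by simpa using hxy⟩)
    rw [this, Nat.cast_zero]; positivity
  obtain ⟨⟨u, w⟩, huw, hmax⟩ := exists_max_image _
    (fun p : V × V => (Nb H p.1).card + (Nb H p.2).card) hne
  simp only [mem_filter, mem_univ, true_and] at huw hmax
  have hs : ∀ x y, H.Adj x y → (Nb H x).card + (Nb H y).card ≤
      (Nb H u).card + (Nb H w).card := fun x y h => hmax (x, y) h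
  have h0 := cs_bound H _ hs
  set n := Fintype.card V with hn
  obtain ⟨χ, hχ⟩ := hG.2 u w (hH.le _ _ huw)
  obtain ⟨cA, hcA, hcA2, hA⟩ := hH.mono u w χ huw hχ
  obtain ⟨cB, hcB, hcB2, hB⟩ := hH.mono w u χ huw.symm hχ.symm
  have hn0 : (0 : ℝ) ≤ n := by positivity
  by_cases hcc : cA = cB
  · subst hcc
    have e1 : (Nb H u).card ≤ K := by
      have : (Nb H u).erase w ⊆ (Nb G u).filter (fun y => χ y = cA) := by
        intro y hy
        rw [mem_erase, mem_Nb] at hy
        exact mem_filter.2 ⟨mem_Nb.2 (hH.le _ _ hy.2), hA y hy.2 hy.1⟩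
      have h1 := card_le_card this
      rw [card_erase_of_mem (mem_Nb.2 huw)] at h1
      omega
    have e2 : (Nb H w).card ≤ K := by
      have : (Nb H w).erase u ⊆ (Nb G w).filter (fun y => χ y = cA) := by
        intro y hy
        rw [mem_erase, mem_Nb] at hy
        exact mem_filter.2 ⟨mem_Nb.2 (hH.le _ _ hy.2), hB y hy.2 hy.1⟩
      have h1 := card_le_card this
      rw [card_erase_of_mem (mem_Nb.2 huw.symm)] at h1
      omega
    have e3 : (((Nb H u).card + (Nb H w).card : ℕ) : ℝ) ≤ 2 * K := by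
      exact_mod_cast (by omega : (Nb H u).card + (Nb H w).card ≤ 2 * K)
    have : (n : ℝ) * ((Nb H u).card + (Nb H w).card : ℕ) ≤ n * (2 * K) :=
      mul_le_mul_of_nonneg_left e3 hn0
    have : (0 : ℝ) ≤ 2 * (n : ℝ) ^ 2 / 7 := by positivity
    nlinarith
  have htriH : ∀ u w y, H.Adj u w → H.Adj u y → ¬ H.Adj w y :=
    fun u w y h1 h2 h3 => hH.tri u w y h1 (hH.le _ _ h2) (hH.le _ _ h3)
  set A := Nb H u with hAd
  set B := Nb H w with hBd
  set R := univ \ (A ∪ B) with hRd
  have hR : ∀ v, v ∈ R ↔ ¬ H.Adj u v ∧ ¬ H.Adj w v := by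
    intro v; simp [hRd, hAd, hBd, mem_Nb]
  have hAB : Disjoint A B := by
    rw [disjoint_left]
    intro v h1 h2
    exact htriH u w v huw (mem_Nb.1 h1) (mem_Nb.1 h2)
  have hABR : Disjoint (A ∪ B) R := disjoint_sdiff
  have hU : A ∪ B ∪ R = univ := union_sdiff_of_subset (subset_univ _)
  have hcard : A.card + B.card + R.card = n := by
    rw [← card_union_of_disjoint hAB, ← card_union_of_disjoint hABR, hU, card_univ]
  have split : ∀ T, E H univ T = E H A T + E H B T + E H R T := by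
    intro T
    rw [← E_union H hAB, ← E_union H hABR, hU]
  have hAA : E H A A = 0 := E_zero H (fun x hx y hy => htriH u x y (mem_Nb.1 hx) (mem_Nb.1 hy))
  have hBB : E H B B = 0 := E_zero H (fun x hx y hy => htriH w x y (mem_Nb.1 hx) (mem_Nb.1 hy))
  have hAU : E H A univ ≤ A.card * B.card := by
    rw [E_univ, ← smul_eq_mul]
    refine sum_le_card_nsmul _ _ _ (fun x hx => ?_)
    have := hs u x (mem_Nb.1 hx)
    rw [← hAd] at this
    omega
  have hBU : E H B univ ≤ B.card * A.card := by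
    rw [E_univ, ← smul_eq_mul]
    refine sum_le_card_nsmul _ _ _ (fun x hx => ?_)
    have := hs w x (mem_Nb.1 hx)
    rw [← hBd] at this
    omega
  have s0 := split univ
  have sA := split A
  have sB := split B
  have sR := split R
  rw [E_comm H univ A] at sA
  rw [E_comm H univ B] at sB
  rw [E_comm H univ R] at sR
  rw [E_comm H B A, E_comm H R A] at sA
  rw [E_comm H R B] at sB
  obtain ⟨α, hα1, hα2, hα3⟩ := E_self_le H htriH R
  have t1 := side hG hH huw hχ hB R hR
  have t2 := side hG hH huw.symm hχ.symm hA R (fun v => by rw [hR, and_comm])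
  rw [← hBd] at t1
  rw [← hAd] at t2
  have hV1 : (R.filter (fun v => χ v = χ w)).card ≤ α := by
    refine hα3 _ (filter_subset _ _) (fun x hx y hy hxy => ?_)
    rw [mem_filter, hR] at hx hy
    rcases hχ.2 x y (hH.le _ _ hxy) (hx.2.trans hy.2.symm) with ⟨h1, _⟩ | ⟨h1, _⟩
    · subst h1; exact hx.1.2 huw.symm
    · subst h1; exact hx.1.1 huw
  have hcov : R.card ≤ (R.filter (fun v => χ v = χ w)).card +
      (R.filter (fun v => χ v = cA)).card + (R.filter (fun v => χ v = cB)).card := by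
    refine le_trans (card_le_card (t := R.filter (fun v => χ v = χ w) ∪
      R.filter (fun v => χ v = cA) ∪ R.filter (fun v => χ v = cB)) ?_)
      ((card_union_le _ _).trans (Nat.add_le_add_right (card_union_le _ _) _))
    intro v hv
    simp only [mem_union, mem_filter, hv, true_and]
    rw [or_assoc]
    exact fin3_cases cA cB (χ w) (χ v) hcA (hχ.1 ▸ hcB) hcc
  have hapos : (0 : ℝ) < A.card := by exact_mod_cast card_pos.2 ⟨w, mem_Nb.2 huw⟩
  have hbpos : (0 : ℝ) < B.card := by exact_mod_cast card_pos.2 ⟨u, mem_Nb.2 huw.symm⟩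
  have hcard' : (R.card : ℝ) = n - (A.card + B.card) := by
    rw [← hcard]; push_cast; ring
  have hα2' : (E H R R : ℝ) ≤ 2 * (α * (n - (A.card + B.card) - α)) := by
    rw [← hcard', ← Nat.cast_sub hα1]; exact_mod_cast hα2
  have k1 : E H univ univ ≤ 2 * (A.card * B.card) + 2 * E H B R + E H R R := by omega
  have k2 : E H univ univ ≤ 2 * (A.card * B.card) + 2 * E H A R + E H R R := by
    rw [mul_comm] at hBU; omega
  have k1' : (E H univ univ : ℝ) ≤ 2 * (A.card * B.card) + 2 * E H B R + E H R R := by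
    exact_mod_cast k1
  have k2' : (E H univ univ : ℝ) ≤ 2 * (A.card * B.card) + 2 * E H A R + E H R R := by
    exact_mod_cast k2
  have hcov' : (R.card : ℝ) ≤ α +
      (R.filter (fun v => χ v = cA)).card + (R.filter (fun v => χ v = cB)).card := by
    exact_mod_cast (by omega)
  have hRn : (0 : ℝ) ≤ R.card := by positivity
  have := arith (n := n) (a := A.card) (b := B.card) (α := α) (S := E H univ univ)
    (x := (R.card : ℝ) - (R.filter (fun v => χ v = cA)).card - A.card + 2)
    (y := (R.card : ℝ) - (R.filter (fun v => χ v = cB)).card - B.card + 2)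
    hapos hbpos (by positivity) (by linarith) (by push_cast at h0; exact h0)
    (by linarith) (by linarith) (by linarith)
  have : (0 : ℝ) ≤ K * n := by positivity
  linarith

end Pool.Agent.Lib.MP_7a5332_co.Up
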