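import Pool.Agent.Lib.MP_7a5332_co.UpCore
import Pool.Agent.Lib.MP_7a5332_co.UpClean

set_option autoImplicit false

namespace Pool.Agent.Lib.MP_7a5332_co.Up

open Finset

variable {V : Type} [Fintype V] [DecidableEq V]

open Classical in
/-- Pairs of neighbours of `w` which, together with `u`, have `w` as only common neighbour. -/
noncomputable def L (G : SimpleGraph V) (u w : V) : Finset (V × V) :=
  univ.filter (fun p => G.Adj w p.1 ∧ G.Adj w p.2 ∧
    ∀ z, G.Adj u z → G.Adj p.1 z → G.Adj p.2 z → z = w)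

open Classical in
lemma L_count (G : SimpleGraph V) (Q : ℝ) :
    ((univ.filter (fun e : V × V => G.Adj e.1 e.2 ∧ Q ≤ (L G e.1 e.2).card)).card : ℝ) * Q ≤
      (Fintype.card V : ℝ) ^ 3 := by
  set B := univ.filter (fun e : V × V => G.Adj e.1 e.2 ∧ Q ≤ (L G e.1 e.2).card) with hB
  have h1 : (B.card : ℝ) * Q ≤ ∑ e ∈ B, ((L G e.1 e.2).card : ℝ) := by
    rw [← nsmul_eq_mul]
    exact card_nsmul_le_sum _ _ _ (fun e he => (mem_filter.1 he).2.2)
  have h2 : ∑ e ∈ B, (L G e.1 e.2).card ≤ Fintype.card V ^ 3 := by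
    rw [← card_sigma]
    have : Fintype.card V ^ 3 = (univ : Finset (V × V × V)).card := by simp; ring
    rw [this]
    refine card_le_card_of_injOn (fun x => (x.1.1, x.2)) (fun _ _ => mem_coe.2 (mem_univ _)) ?_
    rintro ⟨⟨u, w⟩, p⟩ hx ⟨⟨u', w'⟩, p'⟩ hy hxy
    simp only [Prod.mk.injEq] at hxy
    obtain ⟨rfl, rfl⟩ := hxy
    simp only [coe_sigma, Set.mem_sigma_iff, mem_coe, hB, L, mem_filter, mem_univ,
      true_and] at hx hy
    have : w' = w := hx.2.2.2 w' hy.1.1 hy.2.1.symm hy.2.2.1.symm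
    subst this
    rfl
  refine h1.trans ?_
  exact_mod_cast h2

lemma fin3_other (k : Fin 3) : ∃ i j : Fin 3, i ≠ k ∧ j ≠ k ∧ i ≠ j := by
  revert k; decide

lemma L_lower {G : SimpleGraph V} {u w : V} {χ : V → Fin 3} (hχ : Col G u w χ) {i j : Fin 3}
    (hi : i ≠ χ w) (hj : j ≠ χ w) (hij : i ≠ j) :
    ((Nb G w).filter (fun y => χ y = i)).card * ((Nb G w).filter (fun y => χ y = j)).card ≤
      (L G u w).card := by
  classical
  rw [← card_product]
  refine card_le_card (fun p hp => ?_)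
  simp only [mem_product, mem_filter, mem_Nb] at hp
  simp only [L, mem_filter, mem_univ, true_and]
  refine ⟨hp.1.1, hp.2.1, fun z h1 h2 h3 => ?_⟩
  by_contra hzw
  rcases fin3_cases i j (χ w) (χ z) hi hj hij with h | h | h
  · rcases hχ.2 u z h1 (hχ.1.trans h.symm) with ⟨_, h4⟩ | ⟨h4, h5⟩
    · exact hzw h4
    · exact h1.ne h5.symm
  · rcases hχ.2 p.1 z h2 (hp.1.2.trans h.symm) with ⟨_, h4⟩ | ⟨h4, _⟩
    · exact hzw h4
    · exact hp.1.1.ne h4.symm
  · rcases hχ.2 p.2 z h3 (hp.2.2.trans h.symm) with ⟨_, h4⟩ | ⟨h4, _⟩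
    · exact hzw h4
    · exact hp.2.1.ne h4.symm

lemma deg_le {G : SimpleGraph V} {u w : V} {χ : V → Fin 3} (hχ : Col G u w χ) {i j : Fin 3}
    (hi : i ≠ χ w) (hj : j ≠ χ w) (hij : i ≠ j) :
    (Nb G w).card ≤ ((Nb G w).filter (fun y => χ y = i)).card +
      ((Nb G w).filter (fun y => χ y = j)).card + 1 := by
  have : Nb G w ⊆ insert u ((Nb G w).filter (fun y => χ y = i) ∪
      (Nb G w).filter (fun y => χ y = j)) := by
    intro y hy
    simp only [mem_insert, mem_union, mem_filter, hy, true_and]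
    rcases fin3_cases i j (χ w) (χ y) hi hj hij with h | h | h
    · left
      rcases hχ.2 w y (mem_Nb.1 hy) h.symm with ⟨h1, h2⟩ | ⟨_, h2⟩
      · exact h2.trans h1
      · exact h2
    · exact Or.inr (Or.inl h)
    · exact Or.inr (Or.inr h)
  refine (card_le_card this).trans ((card_insert_le _ _).trans ?_)
  exact Nat.add_le_add_right (card_union_le _ _) _

lemma mono_aux {G : SimpleGraph V} {u w y : V} {χ : V → Fin 3} (hχ : Col G u w χ) {i j : Fin 3}
    (hi : i ≠ χ w) (hj : j ≠ χ w) (hij : i ≠ j) {K : ℕ}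
    (hK : ((Nb G w).filter (fun y => χ y = i)).card < K) (huy : G.Adj u y) (hyw : y ≠ w)
    (hc : K < codeg G w y) : χ y = i := by
  classical
  rcases fin3_cases i j (χ w) (χ y) hi hj hij with h | h | h
  · rcases hχ.2 u y huy (hχ.1.trans h.symm) with ⟨_, h2⟩ | ⟨_, h2⟩
    · exact absurd h2 hyw
    · exact absurd h2.symm huy.ne
  · exact h
  · exfalso
    have : univ.filter (fun z => G.Adj w z ∧ G.Adj y z) ⊆
        insert u ((Nb G w).filter (fun y => χ y = i)) := by
      intro z hz
      simp only [mem_filter, mem_univ, true_and] at hz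
      simp only [mem_insert, mem_filter, mem_Nb, hz.1, true_and]
      rcases fin3_cases i j (χ w) (χ z) hi hj hij with h' | h' | h'
      · left
        rcases hχ.2 w z hz.1 h'.symm with ⟨h1, h2⟩ | ⟨_, h2⟩
        · exact h2.trans h1
        · exact h2
      · exact Or.inr h'
      · exfalso
        rcases hχ.2 y z hz.2 (h.trans h'.symm) with ⟨h1, _⟩ | ⟨h1, _⟩
        · exact huy.ne h1.symm
        · exact hyw h1
    have h1 := (card_le_card this).trans (card_insert_le _ _)
    unfold codeg at hc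
    have h2 : K < K := by
      calc K < _ := hc
        _ ≤ _ := by convert h1
        _ ≤ K := hK
    exact lt_irrefl _ h2

/-- Remove a set of ordered pairs from a graph. -/
def rem (G : SimpleGraph V) (Bad : Finset (V × V)) : SimpleGraph V where
  Adj u w := G.Adj u w ∧ (u, w) ∉ Bad ∧ (w, u) ∉ Bad
  symm := ⟨fun _ _ h => ⟨h.1.symm, h.2.2, h.2.1⟩⟩
  loopless := ⟨fun _ h => h.1.ne rfl⟩

omit [DecidableEq V] in
open Classical in
lemma E_eq (G : SimpleGraph V) :
    E G univ univ = (univ.filter (fun p : V × V => G.Adj p.1 p.2)).card := by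
  unfold E
  simp only [card_filter]
  rw [← univ_product_univ, sum_product]

lemma E_rem (G : SimpleGraph V) (Bad : Finset (V × V)) :
    E G univ univ ≤ E (rem G Bad) univ univ + 2 * Bad.card := by
  classical
  rw [E_eq, E_eq]
  have : univ.filter (fun p : V × V => G.Adj p.1 p.2) ⊆
      univ.filter (fun p : V × V => (rem G Bad).Adj p.1 p.2) ∪ Bad ∪ Bad.image Prod.swap := by
    intro p hp
    simp only [mem_filter, mem_univ, true_and] at hp
    simp only [mem_union, mem_filter, mem_univ, true_and, mem_image]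
    by_cases h1 : p ∈ Bad
    · exact Or.inl (Or.inr h1)
    · by_cases h2 : (p.2, p.1) ∈ Bad
      · exact Or.inr ⟨_, h2, rfl⟩
      · exact Or.inl (Or.inl ⟨hp, h1, h2⟩)
  have h1 := card_le_card this
  have h2 := card_union_le (univ.filter (fun p : V × V => (rem G Bad).Adj p.1 p.2) ∪ Bad)
    (Bad.image Prod.swap)
  have h3 := card_union_le (univ.filter (fun p : V × V => (rem G Bad).Adj p.1 p.2)) Bad
  have h4 : (Bad.image Prod.swap).card ≤ Bad.card := card_image_le
  omega

omit [DecidableEq V] in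
lemma E_edges (G : SimpleGraph V) : E G univ univ = 2 * G.edgeSet.ncard := by
  classical
  rw [E_univ, ← SimpleGraph.coe_edgeFinset, Set.ncard_coe_finset,
    ← SimpleGraph.sum_degrees_eq_twice_card_edges]
  refine sum_congr rfl (fun v _ => ?_)
  rw [← SimpleGraph.card_neighborFinset_eq_degree]
  congr 1
  ext x
  simp [mem_Nb]

theorem upper {ε : ℝ} (hε : 0 < ε) : ∃ N : ℕ, ∀ (V : Type) [Fintype V] [DecidableEq V],
    N ≤ Fintype.card V → ∀ G : SimpleGraph V, Crit G →
      (G.edgeSet.ncard : ℝ) ≤ (1 / 7 + ε) * (Fintype.card V : ℝ) ^ 2 := by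
  classical
  set δ := ε / 4 with hδ
  have hδ0 : 0 < δ := by positivity
  obtain ⟨K, hK⟩ := exists_nat_ge (2 / δ ^ 2)
  obtain ⟨N1, hN1⟩ := clean K hδ0
  obtain ⟨N2, hN2⟩ := exists_nat_ge (((K : ℝ) + 20) / δ)
  refine ⟨max (max N1 N2) 1, fun V _ _ hV G hG => ?_⟩
  obtain ⟨B2, hB2c, hB2⟩ := hN1 V (le_trans (by omega) hV) G
  set n := Fintype.card V with hn
  have hnpos : (0 : ℝ) < n := by exact_mod_cast (by omega : 0 < n)
  have hnK : (K : ℝ) + 20 ≤ δ * n := by
    have : (N2 : ℝ) ≤ n := by exact_mod_cast (by omega : N2 ≤ n)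
    rw [div_le_iff₀ hδ0] at hN2
    nlinarith
  set D : ℕ := ⌈δ * n⌉₊ with hD
  have hD1 : δ * n ≤ D := Nat.le_ceil _
  have hD2 : (D : ℝ) ≤ δ * n + 1 := (Nat.ceil_lt_add_one (by positivity)).le
  set B1 : Finset (V × V) := univ.filter (fun e => G.Adj e.1 e.2 ∧ (Nb G e.2).card ≤ D) with hB1
  set B3 : Finset (V × V) := univ.filter
    (fun e : V × V => G.Adj e.1 e.2 ∧ n / δ ≤ (L G e.1 e.2).card) with hB3
  set B4 : Finset (V × V) := (G.cliqueFinset 3).biUnion (fun T => T ×ˢ T) with hB4
  have c1 : B1.card ≤ D * n := by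
    refine card_le_mul_card_image_of_maps_to (f := fun e => e.2) (t := univ)
      (fun _ _ => mem_univ _) D ?_
    intro w _
    by_cases hw : (Nb G w).card ≤ D
    · refine le_trans ?_ hw
      refine card_le_card_of_injOn (fun x => x.1) ?_ ?_
      · intro x hx
        simp only [hB1, coe_filter, mem_filter, mem_univ, true_and, Set.mem_ofPred_eq] at hx
        obtain ⟨⟨h1, _⟩, rfl⟩ := hx
        exact mem_coe.2 (mem_Nb.2 h1.symm)
      · intro x hx y hy hxy
        simp only [coe_filter, Set.mem_ofPred_eq] at hx hy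
        exact Prod.ext hxy (hx.2.trans hy.2.symm)
    · rw [card_eq_zero.2]
      · exact Nat.zero_le _
      · rw [eq_empty_iff_forall_notMem]
        intro x hx
        simp only [hB1, mem_filter, mem_univ, true_and] at hx
        obtain ⟨⟨_, h4⟩, rfl⟩ := hx
        exact hw h4
  have c3 : (B3.card : ℝ) ≤ δ * (n : ℝ) ^ 2 := by
    have h := L_count G (n / δ)
    rw [← hB3, ← hn] at h
    have h2 : (B3.card : ℝ) * (n / δ) * δ ≤ (n : ℝ) ^ 3 * δ :=
      mul_le_mul_of_nonneg_right h hδ0.le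
    have h3 : (B3.card : ℝ) * (n / δ) * δ = B3.card * n := by field_simp
    rw [h3] at h2
    refine le_of_mul_le_mul_right ?_ hnpos
    nlinarith
  have c4 : B4.card ≤ n * 9 := by
    refine (card_biUnion_le_card_mul _ _ 9 (fun T hT => ?_)).trans
      (Nat.mul_le_mul_right _ (card_triangles hG))
    rw [card_product, (SimpleGraph.mem_cliqueFinset_iff.1 hT).card_eq]
  set Bad := B1 ∪ B2 ∪ B3 ∪ B4 with hBad
  have cB : (Bad.card : ℝ) ≤ 3 * δ * (n : ℝ) ^ 2 + 10 * n := by
    have h1 : Bad.card ≤ B1.card + B2.card + B3.card + B4.card := by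
      have := card_union_le (B1 ∪ B2 ∪ B3) B4
      have := card_union_le (B1 ∪ B2) B3
      have := card_union_le B1 B2
      rw [hBad]
      omega
    have h2 : (Bad.card : ℝ) ≤ B1.card + B2.card + B3.card + B4.card := by exact_mod_cast h1
    have h3 : (B1.card : ℝ) ≤ D * n := by exact_mod_cast c1
    have h4 : (B4.card : ℝ) ≤ n * 9 := by exact_mod_cast c4
    have h5 : (D : ℝ) * n ≤ (δ * n + 1) * n := mul_le_mul_of_nonneg_right hD2 hnpos.le
    nlinarith
  have hclean : Clean G (rem G Bad) K := by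
    refine ⟨fun u w h => h.1, fun u w y h huy hwy => ?_, fun u w χ h hχ => ?_⟩
    · apply h.2.1
      simp only [hBad, mem_union]
      right
      simp only [hB4, mem_biUnion, SimpleGraph.mem_cliqueFinset_iff, mem_product]
      exact ⟨{u, w, y}, SimpleGraph.is3Clique_triple_iff.2 ⟨h.1, huy, hwy⟩, by simp, by simp⟩
    · obtain ⟨i, j, hi, hj, hij⟩ := fin3_other (χ w)
      have hb := h.2.1
      simp only [hBad, mem_union, not_or] at hb
      obtain ⟨⟨⟨hb1, hb2⟩, hb3⟩, -⟩ := hb
      simp only [hB1, hB3, mem_filter, mem_univ, true_and, h.1, not_le] at hb1 hb3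
      have hco : ∀ y, (rem G Bad).Adj u y → y ≠ w → K < codeg G w y := by
        intro y hy hyw
        refine hB2 u w y h.1 hy.1 hyw.symm hb2 (fun hm => hy.2.1 ?_)
        simp only [hBad, mem_union]
        exact Or.inl (Or.inl (Or.inr hm))
      have hL := L_lower hχ hi hj hij
      have hd := deg_le hχ hi hj hij
      by_cases h1 : ((Nb G w).filter (fun y => χ y = i)).card < K
      · exact ⟨i, hi, h1, fun y hy hyw => mono_aux hχ hi hj hij h1 hy.1 hyw (hco y hy hyw)⟩
      by_cases h2 : ((Nb G w).filter (fun y => χ y = j)).card < K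
      · exact ⟨j, hj, h2, fun y hy hyw => mono_aux hχ hj hi hij.symm h2 hy.1 hyw (hco y hy hyw)⟩
      exfalso
      push Not at h1 h2
      set a := ((Nb G w).filter (fun y => χ y = i)).card
      set b := ((Nb G w).filter (fun y => χ y = j)).card
      have h3 : K * D ≤ 2 * (a * b) := by
        have : D ≤ a + b := by omega
        nlinarith
      have h4 : (K : ℝ) * D ≤ 2 * (L G u w).card := by
        exact_mod_cast h3.trans (Nat.mul_le_mul_left _ hL)
      have h5 : 2 / δ ^ 2 * (δ * n) ≤ (K : ℝ) * D :=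
        mul_le_mul hK hD1 (by positivity) (by positivity)
      have h6 : 2 / δ ^ 2 * (δ * n) = 2 * (n / δ) := by field_simp
      linarith
  have h1 := core hG hclean
  have h2 := E_rem G Bad
  rw [E_edges] at h2
  have h3 : 2 * (G.edgeSet.ncard : ℝ) ≤ E (rem G Bad) univ univ + 2 * Bad.card := by
    exact_mod_cast h2
  rw [← hn] at h1
  have h4 : ((K : ℝ) + 20) * n ≤ δ * n * n := mul_le_mul_of_nonneg_right hnK hnpos.le
  have h5 : ε = 4 * δ := by rw [hδ]; ring
  have h6 : (20 : ℝ) * n ≤ δ * n * n := by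
    have : (0 : ℝ) ≤ K * n := by positivity
    nlinarith
  rw [h5]
  nlinarith

end Pool.Agent.Lib.MP_7a5332_co.Up
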